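import Mathlib

set_option autoImplicit false

namespace Pool.Agent.TH297.NP

open Set Filter Topology

noncomputable section

/-- `τ(X) = X²/(9+X²)`. -/
def tau (X : ℝ) : ℝ := X ^ 2 / (9 + X ^ 2)

lemma tau_nonneg (X : ℝ) : 0 ≤ tau X := by unfold tau; positivity

lemma tau_le_one (X : ℝ) : tau X ≤ 1 := by
  unfold tau
  rw [div_le_one (by positivity)]
  linarith

lemma tau_neg (X : ℝ) : tau (-X) = tau X := by unfold tau; ring_nf

lemma tau_sub (X Y : ℝ) :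
    tau X - tau Y = 9 * ((X - Y) * (X + Y)) / ((9 + X ^ 2) * (9 + Y ^ 2)) := by
  unfold tau
  have h1 : (9 + X ^ 2) ≠ 0 := by positivity
  have h2 : (9 + Y ^ 2) ≠ 0 := by positivity
  field_simp
  ring

/-- The logarithmic derivative of the first profile. -/
def Xg (j C S z ε : ℝ) : ℝ := z - ε * j * S / (1 + ε * C)

/-- The logarithmic derivative of the second profile. -/
def Xh (j C S z ε : ℝ) : ℝ := z + ε * j * S / (1 - ε * C)

/-- The denominator. -/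
def Dn (β j C S z ε : ℝ) : ℝ :=
  2 - β * ((1 + ε * C) * tau (Xg j C S z ε) + (1 - ε * C) * tau (Xh j C S z ε))

/-- The scalar field: `C = cos jθ`, `S = sin jθ`. -/
def Psi (β j C S z ε : ℝ) : ℝ :=
  -z ^ 2 - 9 + β * ((tau (Xh j C S z ε) - tau (Xg j C S z ε)) *
    (2 * z * (ε * j * S) + ε * j ^ 2 * C) + 12) / Dn β j C S z ε

lemma Psi_neg (β j C S z ε : ℝ) : Psi β j C (-S) (-z) ε = Psi β j C S z ε := by
  have h1 : Xg j C (-S) (-z) ε = -Xg j C S z ε := by unfold Xg; ring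
  have h2 : Xh j C (-S) (-z) ε = -Xh j C S z ε := by unfold Xh; ring
  unfold Psi Dn
  rw [h1, h2, tau_neg, tau_neg]
  ring_nf

lemma Psi_refl (β j C S z ε : ℝ) : Psi β j (-C) S (-z) ε = Psi β j C S z ε := by
  have h1 : Xg j (-C) S (-z) ε = -Xh j C S z ε := by unfold Xg Xh; ring
  have h2 : Xh j (-C) S (-z) ε = -Xg j C S z ε := by unfold Xh Xg; ring
  unfold Psi Dn
  rw [h1, h2, tau_neg, tau_neg]
  have e1 : (1 + ε * -C) * tau (Xh j C S z ε) + (1 - ε * -C) * tau (Xg j C S z ε)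
      = (1 + ε * C) * tau (Xg j C S z ε) + (1 - ε * C) * tau (Xh j C S z ε) := by ring
  rw [e1]
  ring_nf

section bounds

variable {β j C S z ε : ℝ}

lemma eC_bounds (hC : |C| ≤ 1) (h0 : 0 ≤ ε) (h1 : ε ≤ 1 / 2) :
    1 / 2 ≤ 1 + ε * C ∧ 1 / 2 ≤ 1 - ε * C ∧ 1 + ε * C ≤ 3 / 2 ∧ 1 - ε * C ≤ 3 / 2 := by
  have h2 := abs_le.mp hC
  have h3 : |ε * C| ≤ 1 / 2 := by
    rw [abs_mul, abs_of_nonneg h0]
    calc ε * |C| ≤ ε * 1 := mul_le_mul_of_nonneg_left hC h0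
      _ ≤ 1 / 2 := by linarith
  have h4 := abs_le.mp h3
  refine ⟨by linarith, by linarith, by linarith, by linarith⟩

lemma Dn_bounds (hb0 : 0 < β) (hC : |C| ≤ 1) (h0 : 0 ≤ ε) (h1 : ε ≤ 1 / 2) :
    2 - 2 * β ≤ Dn β j C S z ε ∧ Dn β j C S z ε ≤ 2 := by
  obtain ⟨a1, a2, a3, a4⟩ := eC_bounds hC h0 h1
  have t1 := tau_nonneg (Xg j C S z ε)
  have t2 := tau_le_one (Xg j C S z ε)
  have t3 := tau_nonneg (Xh j C S z ε)
  have t4 := tau_le_one (Xh j C S z ε)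
  have s1 : 0 ≤ (1 + ε * C) * tau (Xg j C S z ε) + (1 - ε * C) * tau (Xh j C S z ε) := by
    have := mul_nonneg (by linarith : 0 ≤ 1 + ε * C) t1
    have := mul_nonneg (by linarith : 0 ≤ 1 - ε * C) t3
    linarith
  have s2 : (1 + ε * C) * tau (Xg j C S z ε) + (1 - ε * C) * tau (Xh j C S z ε) ≤ 2 := by
    have := mul_le_mul_of_nonneg_left t2 (by linarith : 0 ≤ 1 + ε * C)
    have := mul_le_mul_of_nonneg_left t4 (by linarith : 0 ≤ 1 - ε * C)
    linarith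
  unfold Dn
  constructor
  · have := mul_le_mul_of_nonneg_left s2 hb0.le
    linarith
  · have := mul_nonneg hb0.le s1
    linarith

/-- The field is negative at the clamping level. -/
lemma Psi_neg_at (hb0 : 0 < β) (hb1 : β < 1) (hj : 1 ≤ j) (hC : |C| ≤ 1) (hS : |S| ≤ 1)
    (h0 : 0 ≤ ε) (h1 : ε ≤ 1 / 2)
    (hz : |z| = β / (2 - 2 * β) * (j + j ^ 2 + 12) + 1) : Psi β j C S z ε < 0 := by
  obtain ⟨d1, d2⟩ := Dn_bounds (j := j) (S := S) (z := z) hb0 hC h0 h1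
  set c := β / (2 - 2 * β) with hc
  have hcpos : 0 < c := by rw [hc]; apply div_pos hb0; linarith
  have hDpos : 0 < Dn β j C S z ε := by linarith
  set A := (tau (Xh j C S z ε) - tau (Xg j C S z ε)) *
    (2 * z * (ε * j * S) + ε * j ^ 2 * C) with hA
  have hz1 : 1 ≤ |z| := by
    rw [hz]
    have : 0 ≤ c * (j + j ^ 2 + 12) := by positivity
    linarith
  have hAb : |A| ≤ |z| * j + j ^ 2 / 2 := by
    rw [hA, abs_mul]
    have t1 : |tau (Xh j C S z ε) - tau (Xg j C S z ε)| ≤ 1 := by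
      rw [abs_le]
      have := tau_nonneg (Xg j C S z ε)
      have := tau_le_one (Xg j C S z ε)
      have := tau_nonneg (Xh j C S z ε)
      have := tau_le_one (Xh j C S z ε)
      constructor <;> linarith
    have t2 : |2 * z * (ε * j * S) + ε * j ^ 2 * C| ≤ |z| * j + j ^ 2 / 2 := by
      refine (abs_add_le _ _).trans ?_
      have e1 : |2 * z * (ε * j * S)| = 2 * |z| * (ε * j * |S|) := by
        rw [abs_mul, abs_mul, abs_mul, abs_mul, abs_of_pos (by norm_num : (0:ℝ) < 2),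
          abs_of_nonneg h0, abs_of_nonneg (by linarith : 0 ≤ j)]
      have e2 : |ε * j ^ 2 * C| = ε * j ^ 2 * |C| := by
        rw [abs_mul, abs_mul, abs_of_nonneg h0, abs_of_nonneg (by positivity : 0 ≤ j ^ 2)]
      rw [e1, e2]
      have i1 : ε * j * |S| ≤ 1 / 2 * j * 1 := by
        gcongr
      have i2 : ε * j ^ 2 * |C| ≤ 1 / 2 * j ^ 2 * 1 := by
        gcongr
      have i3 : 2 * |z| * (ε * j * |S|) ≤ 2 * |z| * (1 / 2 * j * 1) := by
        gcongr
      linarith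
    calc |tau (Xh j C S z ε) - tau (Xg j C S z ε)| * |2 * z * (ε * j * S) + ε * j ^ 2 * C|
        ≤ 1 * (|z| * j + j ^ 2 / 2) := by
          apply mul_le_mul t1 t2 (abs_nonneg _) (by norm_num)
      _ = _ := by ring
  have hA2 := le_abs_self A
  have key : β * (A + 12) / Dn β j C S z ε ≤ c * (|z| * j + j ^ 2 / 2 + 12) := by
    have hnn : 0 ≤ |z| * j + j ^ 2 / 2 + 12 := by positivity
    calc β * (A + 12) / Dn β j C S z ε
        ≤ β * (|z| * j + j ^ 2 / 2 + 12) / Dn β j C S z ε := by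
          apply div_le_div_of_nonneg_right _ hDpos.le
          apply mul_le_mul_of_nonneg_left _ hb0.le
          linarith
      _ ≤ β * (|z| * j + j ^ 2 / 2 + 12) / (2 - 2 * β) := by
          apply div_le_div_of_nonneg_left _ (by linarith) d1
          positivity
      _ = c * (|z| * j + j ^ 2 / 2 + 12) := by rw [hc]; ring
  have hz2 : z ^ 2 = |z| * |z| := by rw [← sq, sq_abs]
  have k2 : c * (|z| * j + j ^ 2 / 2 + 12) ≤ |z| * |z| := by
    have k3 : |z| * j + j ^ 2 / 2 + 12 ≤ |z| * (j + j ^ 2 + 12) := by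
      have u1 : j ^ 2 / 2 ≤ |z| * j ^ 2 := by nlinarith [sq_nonneg j]
      nlinarith
    calc c * (|z| * j + j ^ 2 / 2 + 12) ≤ c * (|z| * (j + j ^ 2 + 12)) :=
          mul_le_mul_of_nonneg_left k3 hcpos.le
      _ = |z| * (c * (j + j ^ 2 + 12)) := by ring
      _ ≤ |z| * |z| := by
          apply mul_le_mul_of_nonneg_left _ (abs_nonneg _)
          rw [hz]; linarith
  unfold Psi
  rw [← hA]
  linarith

/-- Lower bound of the field when the bracket is nonnegative. -/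
lemma Psi_ge (hb0 : 0 < β) (hb1 : β < 1) (hC : |C| ≤ 1)
    (h0 : 0 ≤ ε) (h1 : ε ≤ 1 / 2)
    (ht : tau (Xg j C S z ε) ≤ tau (Xh j C S z ε))
    (hA : 0 ≤ 2 * z * (ε * j * S) + ε * j ^ 2 * C) : -z ^ 2 - 9 ≤ Psi β j C S z ε := by
  obtain ⟨d1, d2⟩ := Dn_bounds (j := j) (S := S) (z := z) hb0 hC h0 h1
  have hDpos : 0 < Dn β j C S z ε := by linarith
  unfold Psi
  have : 0 ≤ β * ((tau (Xh j C S z ε) - tau (Xg j C S z ε)) *
    (2 * z * (ε * j * S) + ε * j ^ 2 * C) + 12) / Dn β j C S z ε := by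
    apply div_nonneg _ hDpos.le
    apply mul_nonneg hb0.le
    have := mul_nonneg (by linarith : 0 ≤ tau (Xh j C S z ε) - tau (Xg j C S z ε)) hA
    linarith
  linarith

lemma Xh_sub_Xg (hC : |C| ≤ 1) (h0 : 0 ≤ ε) (h1 : ε ≤ 1 / 2) :
    Xh j C S z ε - Xg j C S z ε = 2 * (ε * j * S) / ((1 - ε * C) * (1 + ε * C)) := by
  obtain ⟨a1, a2, a3, a4⟩ := eC_bounds hC h0 h1
  have n1 : 1 + ε * C ≠ 0 := by linarith
  have n2 : 1 - ε * C ≠ 0 := by linarith
  unfold Xh Xg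
  field_simp
  ring

lemma Xh_add_Xg (hC : |C| ≤ 1) (h0 : 0 ≤ ε) (h1 : ε ≤ 1 / 2) :
    Xh j C S z ε + Xg j C S z ε
      = 2 * (z + (ε * j * S) * (ε * C) / ((1 - ε * C) * (1 + ε * C))) := by
  obtain ⟨a1, a2, a3, a4⟩ := eC_bounds hC h0 h1
  have n1 : 1 + ε * C ≠ 0 := by linarith
  have n2 : 1 - ε * C ≠ 0 := by linarith
  unfold Xh Xg
  field_simp
  ring

/-- The sign of `τ_h - τ_g`. -/
lemma tau_le_of (hj : 0 ≤ j) (hS0 : 0 ≤ S) (hC : |C| ≤ 1) (h0 : 0 ≤ ε) (h1 : ε ≤ 1 / 2)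
    (hz : 0 ≤ z + (ε * j * S) * (ε * C) / ((1 - ε * C) * (1 + ε * C))) :
    tau (Xg j C S z ε) ≤ tau (Xh j C S z ε) := by
  obtain ⟨a1, a2, a3, a4⟩ := eC_bounds hC h0 h1
  have hsub := Xh_sub_Xg (j := j) (S := S) (z := z) hC h0 h1
  have hadd := Xh_add_Xg (j := j) (S := S) (z := z) hC h0 h1
  have key := tau_sub (Xh j C S z ε) (Xg j C S z ε)
  rw [hsub, hadd] at key
  have : 0 ≤ tau (Xh j C S z ε) - tau (Xg j C S z ε) := by
    rw [key]
    have q1 : 0 < (1 - ε * C) * (1 + ε * C) := mul_pos (by linarith) (by linarith)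
    have q2 : 0 ≤ 2 * (ε * j * S) / ((1 - ε * C) * (1 + ε * C)) :=
      div_nonneg (by positivity) q1.le
    apply div_nonneg _ (by positivity)
    have := mul_nonneg q2 (mul_nonneg (by norm_num : (0:ℝ) ≤ 2) hz)
    linarith
  linarith

end bounds

end

end Pool.Agent.TH297.NP
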