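import Mathlib
import Pool.Agent.TH297.NP.Field
import Pool.Agent.Helper383.WaveODE

set_option autoImplicit false

namespace Pool.Agent.TH297.NP

open Set Filter Topology
open scoped NNReal

noncomputable section

/-- The field as a function on `ℝ⁴`. -/
def PsiF (β j : ℝ) (q : ℝ × ℝ × ℝ × ℝ) : ℝ := Psi β j q.1 q.2.1 q.2.2.1 q.2.2.2

/-- The box. -/
def box (Z : ℝ) : Set (ℝ × ℝ × ℝ × ℝ) :=
  Icc (-1) 1 ×ˢ (Icc (-1) 1 ×ˢ (Icc (-Z) Z ×ˢ Icc 0 (1 / 2)))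

lemma box_compact (Z : ℝ) : IsCompact (box Z) :=
  isCompact_Icc.prod (isCompact_Icc.prod (isCompact_Icc.prod isCompact_Icc))

lemma box_convex (Z : ℝ) : Convex ℝ (box Z) :=
  (convex_Icc _ _).prod ((convex_Icc _ _).prod ((convex_Icc _ _).prod (convex_Icc _ _)))

lemma contDiffAt_tau {q : ℝ × ℝ × ℝ × ℝ} {X : ℝ × ℝ × ℝ × ℝ → ℝ} (hX : ContDiffAt ℝ 2 X q) :
    ContDiffAt ℝ 2 (fun q => tau (X q)) q := by
  unfold tau
  apply ContDiffAt.div (hX.pow 2) (contDiffAt_const.add (hX.pow 2))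
  positivity

lemma contDiffAt_PsiF {β j Z : ℝ} (hb0 : 0 < β) (hb1 : β < 1) {q : ℝ × ℝ × ℝ × ℝ}
    (hq : q ∈ box Z) : ContDiffAt ℝ 2 (PsiF β j) q := by
  obtain ⟨⟨c1, c2⟩, ⟨s1, s2⟩, ⟨z1, z2⟩, ⟨e1, e2⟩⟩ := hq
  have hC : |q.1| ≤ 1 := abs_le.mpr ⟨c1, c2⟩
  obtain ⟨a1, a2, a3, a4⟩ := eC_bounds hC e1 e2
  have hD := Dn_bounds (j := j) (S := q.2.1) (z := q.2.2.1) hb0 hC e1 e2
  have n1 : 1 + q.2.2.2 * q.1 ≠ 0 := by linarith
  have n2 : 1 - q.2.2.2 * q.1 ≠ 0 := by linarith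
  have n3 : Dn β j q.1 q.2.1 q.2.2.1 q.2.2.2 ≠ 0 := by linarith [hD.1]
  have hXg : ContDiffAt ℝ 2 (fun q : ℝ × ℝ × ℝ × ℝ => Xg j q.1 q.2.1 q.2.2.1 q.2.2.2) q := by
    unfold Xg
    fun_prop (disch := assumption)
  have hXh : ContDiffAt ℝ 2 (fun q : ℝ × ℝ × ℝ × ℝ => Xh j q.1 q.2.1 q.2.2.1 q.2.2.2) q := by
    unfold Xh
    fun_prop (disch := assumption)
  have hg := contDiffAt_tau hXg
  have hh := contDiffAt_tau hXh
  have hDn : ContDiffAt ℝ 2 (fun q : ℝ × ℝ × ℝ × ℝ => Dn β j q.1 q.2.1 q.2.2.1 q.2.2.2) q := by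
    unfold Dn
    fun_prop (disch := assumption)
  unfold PsiF Psi
  fun_prop (disch := assumption)

lemma exists_lip {β j Z : ℝ} (hb0 : 0 < β) (hb1 : β < 1) :
    ∃ K : ℝ≥0, LipschitzOnWith K (PsiF β j) (box Z) := by
  have hc : ContinuousOn (fun q => fderiv ℝ (PsiF β j) q) (box Z) := by
    intro q hq
    exact ((contDiffAt_PsiF hb0 hb1 hq).continuousAt_fderiv (by norm_num)).continuousWithinAt
  obtain ⟨K, hK⟩ := (box_compact Z).exists_bound_of_continuousOn hc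
  refine ⟨K.toNNReal, (box_convex Z).lipschitzOnWith_of_nnnorm_fderiv_le
    (fun q hq => (contDiffAt_PsiF hb0 hb1 hq).differentiableAt (by norm_num)) (fun q hq => ?_)⟩
  rw [← NNReal.coe_le_coe, coe_nnnorm]
  exact (hK q hq).trans (Real.le_coe_toNNReal K)

lemma exists_bd {β j Z : ℝ} (hb0 : 0 < β) (hb1 : β < 1) :
    ∃ B : ℝ≥0, ∀ q ∈ box Z, |PsiF β j q| ≤ B := by
  have hc : ContinuousOn (PsiF β j) (box Z) := by
    intro q hq
    exact (contDiffAt_PsiF hb0 hb1 hq).continuousAt.continuousWithinAt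
  obtain ⟨K, hK⟩ := (box_compact Z).exists_bound_of_continuousOn hc
  exact ⟨K.toNNReal, fun q hq => (hK q hq).trans (Real.le_coe_toNNReal K)⟩

/-- Clamping. -/
def cl (a b x : ℝ) : ℝ := max a (min x b)

lemma cl_mem {a b : ℝ} (h : a ≤ b) (x : ℝ) : cl a b x ∈ Icc a b :=
  ⟨le_max_left _ _, max_le h (min_le_right _ _)⟩

lemma cl_eq {a b x : ℝ} (h : x ∈ Icc a b) : cl a b x = x := by
  unfold cl
  rw [min_eq_left h.2, max_eq_right h.1]

lemma cl_eq_right {a b x : ℝ} (hab : a ≤ b) (h : b ≤ x) : cl a b x = b := by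
  unfold cl
  rw [min_eq_right h, max_eq_right hab]

lemma cl_eq_left {a b x : ℝ} (h : x ≤ a) : cl a b x = a := by
  unfold cl
  rw [max_eq_left ((min_le_left _ _).trans h)]

lemma cl_neg {Z : ℝ} (hZ : 0 ≤ Z) (x : ℝ) : cl (-Z) Z (-x) = -cl (-Z) Z x := by
  rcases le_total x (-Z) with h | h
  · rw [cl_eq_left h, cl_eq_right (by linarith) (by linarith)]; simp
  · rcases le_total Z x with h' | h'
    · rw [cl_eq_right (by linarith) h', cl_eq_left (by linarith)]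
    · rw [cl_eq ⟨h, h'⟩, cl_eq ⟨by linarith, by linarith⟩]

lemma lipschitz_cl (a b : ℝ) : LipschitzWith 1 (cl a b) :=
  ((LipschitzWith.id).min_const b).const_max a

/-- The clamped field on the state space `(z, ε)`. -/
def V (β j Z θ : ℝ) (x : ℝ × ℝ) : ℝ × ℝ :=
  (PsiF β j (Real.cos (j * θ), Real.sin (j * θ), cl (-Z) Z x.1, cl 0 (1 / 2) x.2), 0)

lemma mem_box {Z : ℝ} (hZ : 0 ≤ Z) (φ : ℝ) (x : ℝ × ℝ) :
    (Real.cos φ, Real.sin φ, cl (-Z) Z x.1, cl 0 (1 / 2) x.2) ∈ box Z :=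
  ⟨⟨Real.neg_one_le_cos _, Real.cos_le_one _⟩, ⟨Real.neg_one_le_sin _, Real.sin_le_one _⟩,
    cl_mem (by linarith) _, cl_mem (by norm_num) _⟩

lemma V_lip {β j Z : ℝ} (hb0 : 0 < β) (hb1 : β < 1) (hZ : 0 ≤ Z) :
    ∃ K : ℝ≥0, ∀ θ, LipschitzWith K (V β j Z θ) := by
  obtain ⟨K, hK⟩ := exists_lip (j := j) (Z := Z) hb0 hb1
  refine ⟨K, fun θ => ?_⟩
  refine LipschitzWith.of_dist_le_mul fun x y => ?_
  have h1 := hK.dist_le_mul _ (mem_box hZ (j * θ) x) _ (mem_box hZ (j * θ) y)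
  have h2 : dist ((Real.cos (j * θ), Real.sin (j * θ), cl (-Z) Z x.1, cl 0 (1 / 2) x.2) : ℝ × ℝ × ℝ × ℝ)
      (Real.cos (j * θ), Real.sin (j * θ), cl (-Z) Z y.1, cl 0 (1 / 2) y.2) ≤ dist x y := by
    rw [Prod.dist_eq, Prod.dist_eq, Prod.dist_eq]
    simp only [dist_self]
    have g1 := (lipschitz_cl (-Z) Z).dist_le_mul x.1 y.1
    have g2 := (lipschitz_cl 0 (1 / 2)).dist_le_mul x.2 y.2
    simp only [NNReal.coe_one, one_mul] at g1 g2
    refine max_le dist_nonneg (max_le dist_nonneg (max_le ?_ ?_))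
    · exact g1.trans (by rw [Prod.dist_eq]; exact le_max_left _ _)
    · exact g2.trans (by rw [Prod.dist_eq]; exact le_max_right _ _)
  unfold V
  rw [Prod.dist_eq]
  simp only [dist_self]
  refine max_le (h1.trans ?_) (by positivity)
  exact mul_le_mul_of_nonneg_left h2 K.2

lemma V_cont {β j Z : ℝ} (hb0 : 0 < β) (hb1 : β < 1) (hZ : 0 ≤ Z) (x : ℝ × ℝ) :
    Continuous (fun θ => V β j Z θ x) := by
  unfold V
  refine Continuous.prodMk ?_ continuous_const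
  have hc : ContinuousOn (PsiF β j) (box Z) := by
    intro q hq
    exact (contDiffAt_PsiF hb0 hb1 hq).continuousAt.continuousWithinAt
  refine hc.comp_continuous (f := fun θ => ((Real.cos (j * θ), Real.sin (j * θ), cl (-Z) Z x.1,
    cl 0 (1 / 2) x.2) : ℝ × ℝ × ℝ × ℝ)) ?_ (fun θ => mem_box hZ (j * θ) x)
  fun_prop

lemma V_bd {β j Z : ℝ} (hb0 : 0 < β) (hb1 : β < 1) (hZ : 0 ≤ Z) :
    ∃ B : ℝ≥0, ∀ θ x, ‖V β j Z θ x‖ ≤ B := by
  obtain ⟨B, hB⟩ := exists_bd (j := j) (Z := Z) hb0 hb1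
  refine ⟨B, fun θ x => ?_⟩
  unfold V
  rw [Prod.norm_def]
  simp only [norm_zero]
  exact max_le (hB _ (mem_box hZ (j * θ) x)) B.2

/-- The field for fixed amplitude. -/
def F (β j Z ε θ z : ℝ) : ℝ :=
  Psi β j (Real.cos (j * θ)) (Real.sin (j * θ)) (cl (-Z) Z z) ε

lemma F_lip {β j Z ε : ℝ} (hb0 : 0 < β) (hb1 : β < 1) (hZ : 0 ≤ Z) (hε : ε ∈ Icc (0:ℝ) (1 / 2)) :
    ∃ K : ℝ≥0, ∀ θ, LipschitzWith K (F β j Z ε θ) := by
  obtain ⟨K, hK⟩ := V_lip (j := j) hb0 hb1 hZ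
  refine ⟨K, fun θ => LipschitzWith.of_dist_le_mul fun x y => ?_⟩
  have h := (hK θ).dist_le_mul (x, ε) (y, ε)
  unfold V PsiF at h
  rw [Prod.dist_eq, Prod.dist_eq] at h
  simp only [dist_self, cl_eq hε] at h
  rw [max_eq_left dist_nonneg, max_eq_left dist_nonneg] at h
  exact h

/-- The flow: for each amplitude a solution, depending continuously on the amplitude. -/
theorem exists_flow {β j Z : ℝ} (hb0 : 0 < β) (hb1 : β < 1) (hZ : 0 ≤ Z) {L : ℝ} (hL : 0 ≤ L) :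
    ∃ z : ℝ → ℝ → ℝ, (∀ ε ∈ Icc (0:ℝ) (1 / 2), z ε 0 = 0 ∧
      ∀ t, HasDerivAt (z ε) (F β j Z ε t (z ε t)) t) ∧
      ContinuousOn (fun ε => z ε L) (Icc 0 (1 / 2)) := by
  obtain ⟨K, hK⟩ := V_lip (j := j) hb0 hb1 hZ
  obtain ⟨B, hB⟩ := V_bd (j := j) hb0 hb1 hZ
  have hex : ∀ ε : ℝ, ∃ f : ℝ → ℝ × ℝ, f 0 = (0, ε) ∧ ∀ t, HasDerivAt f (V β j Z t (f t)) t :=
    fun ε => Pool.Agent.Helper383.WaveODE.global_ode hK (V_cont hb0 hb1 hZ) hB (0, ε)
  choose f hf0 hf using hex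
  have hsnd : ∀ ε t, (f ε t).2 = ε := by
    intro ε t
    have hd : ∀ s, HasDerivAt (fun s => (f ε s).2) 0 s := by
      intro s
      have := (hf ε s).hasFDerivAt.snd.hasDerivAt
      simpa [V] using this
    have hc := is_const_of_deriv_eq_zero (f := fun s => (f ε s).2)
      (fun s => (hd s).differentiableAt) (fun s => (hd s).deriv) t 0
    rw [hc, hf0]
  refine ⟨fun ε t => (f ε t).1, fun ε hε => ⟨by simp [hf0], fun t => ?_⟩, ?_⟩
  · have := (hf ε t).hasFDerivAt.fst.hasDerivAt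
    have h2 : HasDerivAt (fun s => (f ε s).1) (V β j Z t (f ε t)).1 t := by
      simpa using this
    have e : (V β j Z t (f ε t)).1 = F β j Z ε t ((f ε t).1) := by
      unfold V F PsiF
      simp only
      rw [hsnd, cl_eq hε]
    rw [e] at h2
    exact h2
  · have hlip : LipschitzOnWith (K := (Real.exp (K * L)).toNNReal)
        (fun ε => (f ε L).1) (Icc (0:ℝ) (1 / 2)) := by
      refine LipschitzOnWith.of_dist_le_mul fun a _ b _ => ?_
      have h := dist_le_of_trajectories_ODE (v := V β j Z) (K := K) (f := f a) (g := f b)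
        (a := 0) (b := L) (δ := dist a b) hK
        (fun t _ => (hf a t).continuousAt.continuousWithinAt)
        (fun t _ => (hf a t).hasDerivWithinAt)
        (fun t _ => (hf b t).continuousAt.continuousWithinAt)
        (fun t _ => (hf b t).hasDerivWithinAt)
        (by rw [hf0, hf0, Prod.dist_eq]; simp) L ⟨hL, le_refl _⟩
      rw [sub_zero] at h
      have h3 : dist (f a L).1 (f b L).1 ≤ dist (f a L) (f b L) := by
        rw [Prod.dist_eq (x := f a L)]; exact le_max_left _ _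
      refine h3.trans (h.trans (le_of_eq ?_))
      rw [Real.coe_toNNReal _ (Real.exp_pos _).le]
      ring
    exact hlip.continuousOn

/-- Barriers. -/
lemma barrier_upper {z z' B B' : ℝ → ℝ} (hz : ∀ t, HasDerivAt z (z' t) t)
    (hB : ∀ t, HasDerivAt B (B' t) t) {a b : ℝ} (ha : z a ≤ B a)
    (h : ∀ t ∈ Ico a b, z t = B t → z' t < B' t) : ∀ t ∈ Icc a b, z t ≤ B t :=
  fun _ ht => image_le_of_deriv_right_lt_deriv_boundary
    (fun t _ => (hz t).continuousAt.continuousWithinAt)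
    (fun t _ => (hz t).hasDerivWithinAt) ha hB h ht

lemma barrier_lower {z z' B B' : ℝ → ℝ} (hz : ∀ t, HasDerivAt z (z' t) t)
    (hB : ∀ t, HasDerivAt B (B' t) t) {a b : ℝ} (ha : B a ≤ z a)
    (h : ∀ t ∈ Ico a b, z t = B t → B' t < z' t) : ∀ t ∈ Icc a b, B t ≤ z t :=
  fun _ ht => image_le_of_deriv_right_lt_deriv_boundary
    (fun t _ => (hB t).continuousAt.continuousWithinAt)
    (fun t _ => (hB t).hasDerivWithinAt) ha hz (fun t ht he => h t ht he.symm) ht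

end

end Pool.Agent.TH297.NP
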