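import Mathlib
import Pool.Agent.TH297.NP.Ode

set_option autoImplicit false

namespace Pool.Agent.TH297.NP

open Set Filter Topology
open scoped NNReal

noncomputable section

/-- The clamping level. -/
def Zc (β j : ℝ) : ℝ := β / (2 - 2 * β) * (j + j ^ 2 + 12) + 1

lemma Zc_ge {β j : ℝ} (hb0 : 0 < β) (hb1 : β < 1) (hj : 0 ≤ j) : 1 ≤ Zc β j := by
  unfold Zc
  have : 0 ≤ β / (2 - 2 * β) * (j + j ^ 2 + 12) := by
    apply mul_nonneg (div_nonneg hb0.le (by linarith)) (by positivity)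
  linarith

lemma F_eq {β j Z ε θ z : ℝ} (hz : |z| ≤ Z) :
    F β j Z ε θ z = Psi β j (Real.cos (j * θ)) (Real.sin (j * θ)) z ε := by
  unfold F
  rw [cl_eq (abs_le.mp hz)]

/-- The endpoint value for zero amplitude. -/
lemma end_zero {β j : ℝ} (hb0 : 0 < β) (hb1 : β < 1) (hj : 1 ≤ j) {L : ℝ} (hL : 0 ≤ L)
    {z : ℝ → ℝ} (h0 : z 0 = 0) (hz : ∀ t, HasDerivAt z (F β j (Zc β j) 0 t (z t)) t) :
    z L ≤ 0 := by
  have hZ := Zc_ge (j := j) hb0 hb1 (by linarith)
  have h := barrier_upper (B := fun _ => 0) (B' := fun _ => 0) hz (fun t => hasDerivAt_const t 0)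
    (a := 0) (b := L) (by simp [h0]) (fun t _ he => ?_)
  · exact h L ⟨hL, le_refl _⟩
  · have he' : z t = 0 := he
    change F β j (Zc β j) 0 t (z t) < 0
    rw [he', F_eq (by simp; linarith)]
    unfold Psi Dn Xh Xg tau
    norm_num
    linarith

/-- The growth in the window. -/
lemma window_bound {β j z C S : ℝ} (hb0 : 0 < β) (hb1 : β < 1) (hj : 3000 ≤ j)
    (hz : |z| ≤ 0.1) (hC : 0.99 ≤ C) (hC1 : C ≤ 1) (hn0 : 3 ≤ 1 / 2 * j * S)
    (hn1 : 1 / 2 * j * S ≤ 6) : β * j ^ 2 / 500 - 10 ≤ Psi β j C S z (1 / 2) := by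
  have hCa : |C| ≤ 1 := abs_le.mpr ⟨by linarith, hC1⟩
  obtain ⟨z0, z1⟩ := abs_le.mp hz
  obtain ⟨d1, d2⟩ := Dn_bounds (j := j) (S := S) (z := z) (ε := 1 / 2) hb0 hCa (by norm_num)
    (by norm_num)
  have hsub := Xh_sub_Xg (j := j) (S := S) (z := z) (ε := 1 / 2) hCa (by norm_num) (by norm_num)
  have hadd := Xh_add_Xg (j := j) (S := S) (z := z) (ε := 1 / 2) hCa (by norm_num) (by norm_num)
  have key := tau_sub (Xh j C S z (1 / 2)) (Xg j C S z (1 / 2))
  have hXh0 : 0 ≤ Xh j C S z (1 / 2) := by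
    unfold Xh
    have : 3 ≤ 1 / 2 * j * S / (1 - 1 / 2 * C) := by
      rw [le_div_iff₀ (by linarith)]
      linarith
    linarith
  have hXh1 : Xh j C S z (1 / 2) ≤ 12.1 := by
    unfold Xh
    have : 1 / 2 * j * S / (1 - 1 / 2 * C) ≤ 12 := by
      rw [div_le_iff₀ (by linarith)]
      linarith
    linarith
  have hXg0 : -6.1 ≤ Xg j C S z (1 / 2) := by
    unfold Xg
    have : 1 / 2 * j * S / (1 + 1 / 2 * C) ≤ 6 := by
      rw [div_le_iff₀ (by linarith)]
      linarith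
    linarith
  have hXg1 : Xg j C S z (1 / 2) ≤ 6.1 := by
    unfold Xg
    have : 0 ≤ 1 / 2 * j * S / (1 + 1 / 2 * C) := by
      apply div_nonneg <;> linarith
    linarith
  have q0 : 0 < (1 - 1 / 2 * C) * (1 + 1 / 2 * C) := mul_pos (by linarith) (by linarith)
  have q1 : (1 - 1 / 2 * C) * (1 + 1 / 2 * C) ≤ 1 := by nlinarith
  have s1 : 6 ≤ Xh j C S z (1 / 2) - Xg j C S z (1 / 2) := by
    rw [hsub, le_div_iff₀ q0]
    linarith
  have s2 : 2.7 ≤ Xh j C S z (1 / 2) + Xg j C S z (1 / 2) := by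
    rw [hadd]
    have : 1.45 ≤ 1 / 2 * j * S * (1 / 2 * C) / ((1 - 1 / 2 * C) * (1 + 1 / 2 * C)) := by
      rw [le_div_iff₀ q0]
      have := mul_le_mul hn0 (by linarith : (0.495:ℝ) ≤ 1 / 2 * C) (by norm_num) (by linarith)
      linarith
    linarith
  have s3 : 16 ≤ (Xh j C S z (1 / 2) - Xg j C S z (1 / 2)) *
      (Xh j C S z (1 / 2) + Xg j C S z (1 / 2)) := by
    have := mul_le_mul s1 s2 (by norm_num) (by linarith)
    linarith
  have s4 : 9 + Xh j C S z (1 / 2) ^ 2 ≤ 156 := by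
    have := pow_le_pow_left₀ hXh0 hXh1 2
    norm_num at this ⊢
    linarith
  have s5 : 9 + Xg j C S z (1 / 2) ^ 2 ≤ 47 := by
    have := sq_le_sq' hXg0 hXg1
    norm_num at this ⊢
    linarith
  have s6 : (9 + Xh j C S z (1 / 2) ^ 2) * (9 + Xg j C S z (1 / 2) ^ 2) ≤ 156 * 47 := by
    apply mul_le_mul s4 s5 (by positivity) (by norm_num)
  have t1 : 1 / 75 ≤ tau (Xh j C S z (1 / 2)) - tau (Xg j C S z (1 / 2)) := by
    rw [key, le_div_iff₀ (by positivity)]
    linarith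
  have hA : 0.49 * j ^ 2 ≤ 2 * z * (1 / 2 * j * S) + 1 / 2 * j ^ 2 * C := by
    have u1 : -(1.2 : ℝ) ≤ 2 * z * (1 / 2 * j * S) := by
      have := mul_le_mul_of_nonneg_right z0 (by linarith : 0 ≤ 1 / 2 * j * S)
      linarith
    have u2 : j ^ 2 * 0.99 ≤ j ^ 2 * C := mul_le_mul_of_nonneg_left hC (by positivity)
    have u3 : 3000 * 3000 ≤ j ^ 2 := by nlinarith
    linarith
  have hA2 : 1 / 75 * (0.49 * j ^ 2) ≤ (tau (Xh j C S z (1 / 2)) - tau (Xg j C S z (1 / 2))) *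
      (2 * z * (1 / 2 * j * S) + 1 / 2 * j ^ 2 * C) := by
    apply mul_le_mul t1 hA (by positivity) (by linarith)
  have hDpos : 0 < Dn β j C S z (1 / 2) := by linarith
  unfold Psi
  have h3 : β * (1 / 75 * (0.49 * j ^ 2)) / 2 ≤ β * ((tau (Xh j C S z (1 / 2)) -
      tau (Xg j C S z (1 / 2))) * (2 * z * (1 / 2 * j * S) + 1 / 2 * j ^ 2 * C) + 12) /
      Dn β j C S z (1 / 2) := by
    rw [div_le_div_iff₀ (by norm_num) hDpos]
    have w1 : β * (1 / 75 * (0.49 * j ^ 2)) ≤ β * ((tau (Xh j C S z (1 / 2)) -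
      tau (Xg j C S z (1 / 2))) * (2 * z * (1 / 2 * j * S) + 1 / 2 * j ^ 2 * C) + 12) := by
      apply mul_le_mul_of_nonneg_left _ hb0.le
      linarith
    have w0 : 0 ≤ β * (1 / 75 * (0.49 * j ^ 2)) := by positivity
    apply mul_le_mul w1 d2 hDpos.le (w0.trans w1)
  have h4 : z ^ 2 ≤ 0.01 := by
    have := sq_le_sq' z0 z1
    norm_num at this ⊢
    linarith
  have h5 : 0 ≤ β * j ^ 2 := by positivity
  linarith

lemma trig_small {j t : ℝ} (h0 : 0 ≤ j * t) (h1 : j * t ≤ 1 / 250) :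
    0.99 ≤ Real.cos (j * t) ∧ 0.99 * (j * t) ≤ Real.sin (j * t) := by
  have h2 := Real.one_sub_sq_div_two_le_cos (x := j * t)
  constructor
  · nlinarith
  · rcases h0.eq_or_lt with h | h
    · rw [← h]; simp
    have h3 := Real.sin_gt_sub_cube h
    have h4 : (j * t) ^ 3 / 6 ≤ 0.01 * (j * t) := by
      have h5 : (j * t) ^ 2 ≤ 0.06 := by nlinarith
      have h6 := mul_le_mul_of_nonneg_left h5 h0
      nlinarith
    linarith

/-- The escape barrier. -/
lemma escape {β j : ℝ} (hb0 : 0 < β) (hb1 : β < 1) (hj : 3000 ≤ j)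
    {z : ℝ → ℝ} (hz : ∀ t, HasDerivAt z (F β j (Zc β j) (1 / 2) t (z t)) t) {L : ℝ}
    (hLj : L * j = Real.pi / 2) (hL0 : 0 < L) (hL1 : L ≤ 1 / 1800) {θ₁ : ℝ}
    (hθ0 : 0 ≤ θ₁) (hθL : θ₁ ≤ L) (hθ : 10 * (L - θ₁) ≤ z θ₁) : 0 ≤ z L := by
  have hZ := Zc_ge (j := j) hb0 hb1 (by linarith)
  have hpi := Real.pi_gt_three
  have hj0 : 0 < j := by linarith
  have hcos1 : ∀ t, |Real.cos (j * t)| ≤ 1 := fun t => Real.abs_cos_le_one _
  have h := barrier_lower (B := fun t => 10 * (L - t)) (B' := fun _ => -10) hz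
    (fun t => by
      have := ((hasDerivAt_id t).const_sub L).const_mul 10
      simpa using this)
    (a := θ₁) (b := L) hθ (fun t ht he => ?_)
  · have := h L ⟨hθL, le_refl _⟩
    simpa using this
  · have he' : z t = 10 * (L - t) := he
    change -10 < F β j (Zc β j) (1 / 2) t (z t)
    have z0 : 0 ≤ z t := by rw [he']; linarith [ht.2]
    have z1 : z t ≤ 1 / 2 := by rw [he']; linarith [ht.1]
    rw [F_eq (by rw [abs_of_nonneg z0]; linarith)]
    have t0 : 0 ≤ t := hθ0.trans ht.1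
    have x0 : 0 ≤ j * t := by positivity
    have x1 : j * t ≤ Real.pi / 2 := by rw [← hLj]; nlinarith [ht.2]
    have hC0 : 0 ≤ Real.cos (j * t) := Real.cos_nonneg_of_mem_Icc ⟨by linarith, x1⟩
    have hS0 : 0 ≤ Real.sin (j * t) := Real.sin_nonneg_of_nonneg_of_le_pi x0 (by linarith)
    have hC1 := Real.cos_le_one (j * t)
    have hge := Psi_ge (β := β) (j := j) (C := Real.cos (j * t)) (S := Real.sin (j * t))
      (z := z t) (ε := 1 / 2) hb0 hb1 (hcos1 t) (by norm_num) (by norm_num)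
      (tau_le_of hj0.le hS0 (hcos1 t) (by norm_num) (by norm_num) (by
        apply add_nonneg z0
        apply div_nonneg (by positivity)
        apply mul_nonneg <;> linarith)) (by positivity)
    nlinarith

/-- The lower barrier. -/
lemma lower {β j : ℝ} (hb0 : 0 < β) (hb1 : β < 1) (hj : 3000 ≤ j)
    {z : ℝ → ℝ} (h0 : z 0 = 0) (hz : ∀ t, HasDerivAt z (F β j (Zc β j) (1 / 2) t (z t)) t)
    {T : ℝ} (hT0 : 0 < T) (hTj : T * j ≤ 1 / 250) (hT1 : T ≤ 1 / 750000) :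
    ∀ t ∈ Icc 0 T, -10 * t ≤ z t := by
  have hZ := Zc_ge (j := j) hb0 hb1 (by linarith)
  have hj0 : 0 < j := by linarith
  refine barrier_lower (B := fun t => -10 * t) (B' := fun _ => -10) hz
    (fun t => by
      have := (hasDerivAt_id t).const_mul (-10)
      simpa using this)
    (a := 0) (b := T) (by simp [h0]) (fun t ht he => ?_)
  have he' : z t = -10 * t := he
  change -10 < F β j (Zc β j) (1 / 2) t (z t)
  have t0 := ht.1
  have t1 := ht.2.le
  have zb : |z t| ≤ 1 / 2 := by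
    rw [he', abs_le]
    constructor <;> linarith
  rw [F_eq (zb.trans (by linarith))]
  have x0 : 0 ≤ j * t := by positivity
  have x1 : j * t ≤ 1 / 250 := by
    have := mul_le_mul_of_nonneg_left t1 hj0.le
    linarith
  obtain ⟨hC, hS⟩ := trig_small x0 x1
  have hC1 := Real.cos_le_one (j * t)
  have hS1 := Real.sin_le_one (j * t)
  have hCa := Real.abs_cos_le_one (j * t)
  generalize Real.cos (j * t) = C at *
  generalize Real.sin (j * t) = S at *
  have hS0 : 0 ≤ S := by nlinarith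
  have q0 : 0 < (1 - 1 / 2 * C) * (1 + 1 / 2 * C) :=
    mul_pos (by linarith) (by linarith)
  have q1 : (1 - 1 / 2 * C) * (1 + 1 / 2 * C) ≤ 1 := by
    nlinarith
  have q2 : 10 * t ≤ 1 / 2 * j * S * (1 / 2 * C) := by
    have e1 : 0.99 * (j * t) * 0.99 ≤ S * C := mul_le_mul hS hC (by norm_num) hS0
    have e2 : j * (0.99 * (j * t) * 0.99) ≤ j * (S * C) := mul_le_mul_of_nonneg_left e1 hj0.le
    have e3 : 3000 * 3000 * t ≤ j * j * t := by
      apply mul_le_mul_of_nonneg_right _ t0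
      nlinarith
    linarith
  have q3 : 10 * t ≤ 1 / 2 * j * S * (1 / 2 * C) / ((1 - 1 / 2 * C) * (1 + 1 / 2 * C)) := by
    rw [le_div_iff₀ q0]
    have : 10 * t * ((1 - 1 / 2 * C) * (1 + 1 / 2 * C)) ≤ 10 * t * 1 :=
      mul_le_mul_of_nonneg_left q1 (by linarith)
    linarith
  have hge := Psi_ge (β := β) (j := j) (C := C) (S := S)
    (z := z t) (ε := 1 / 2) hb0 hb1 hCa (by norm_num) (by norm_num)
    (tau_le_of hj0.le hS0 hCa (by norm_num) (by norm_num) (by rw [he']; linarith))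
    (by
      rw [he']
      have r1 : t * j * S ≤ 1 := by
        have : t * j ≤ 1 / 250 := by linarith
        nlinarith [mul_nonneg t0 hj0.le]
      have r2 : 3000 * 3000 ≤ j ^ 2 := by nlinarith
      have r3 : j ^ 2 * 0.99 ≤ j ^ 2 * C := mul_le_mul_of_nonneg_left hC (by positivity)
      nlinarith)
  have : z t ^ 2 ≤ 1 / 4 := by
    have := sq_le_sq' (by linarith [abs_le.mp zb]) (abs_le.mp zb).2
    linarith
  linarith

lemma end_half {β j : ℝ} (hb0 : 0 < β) (hb1 : β < 1) (hj : 3000 ≤ β * j)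
    {z : ℝ → ℝ} (h0 : z 0 = 0) (hz : ∀ t, HasDerivAt z (F β j (Zc β j) (1 / 2) t (z t)) t) :
    0 ≤ z (Real.pi / (2 * j)) := by
  have hj0 : 0 < j := by
    by_contra h
    push Not at h
    nlinarith
  have hj1 : 3000 ≤ j := by nlinarith
  have hZ := Zc_ge (j := j) hb0 hb1 hj0.le
  set L := Real.pi / (2 * j) with hLdef
  have hpi := Real.pi_gt_three
  have hpi2 := Real.pi_lt_d2
  have hLj : L * j = Real.pi / 2 := by rw [hLdef]; field_simp
  have hL0 : 0 < L := by rw [hLdef]; positivity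
  have hL1 : L ≤ 1 / 1800 := by
    by_contra h
    push Not at h
    nlinarith
  set T := 12 / j ^ 2 with hT
  have hj2 : (0:ℝ) < j ^ 2 := by positivity
  have hj2' : (9000000 : ℝ) ≤ j ^ 2 := by nlinarith
  have hT0 : 0 < T := by rw [hT]; positivity
  have hTj2 : T * j ^ 2 = 12 := by rw [hT]; field_simp
  have hTj : T * j ≤ 1 / 250 := by
    have : T * j * j = 12 := by rw [← hTj2]; ring
    by_contra h
    push Not at h
    nlinarith
  have hTL : T ≤ L := by
    have : T * j ≤ L * j := by rw [hLj]; linarith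
    exact le_of_mul_le_mul_right this hj0
  have hT1 : T ≤ 1 / 750000 := by
    by_contra h
    push Not at h
    nlinarith
  have low := lower hb0 hb1 hj1 h0 hz hT0 hTj hT1
  by_cases hex : ∃ θ₁, 0 ≤ θ₁ ∧ θ₁ ≤ T ∧ 10 * (L - θ₁) ≤ z θ₁
  · obtain ⟨θ₁, a1, a2, a3⟩ := hex
    exact escape hb0 hb1 hj1 hz hLj hL0 hL1 a1 (a2.trans hTL) a3
  exfalso
  push Not at hex
  set a := 7 / j ^ 2 with ha
  have haj : a * j ^ 2 = 7 := by rw [ha]; field_simp
  have ha0 : 0 < a := by rw [ha]; positivity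
  have haT : a < T := by
    rw [ha, hT]
    exact div_lt_div_of_pos_right (by norm_num) hj2
  obtain ⟨ξ, hξ, hslope⟩ := exists_hasDerivAt_eq_slope z _ haT
    (fun t _ => (hz t).continuousAt.continuousWithinAt) (fun t _ => hz t)
  have ξ0 : 0 ≤ ξ := by linarith [hξ.1]
  have zlow := low ξ ⟨ξ0, hξ.2.le⟩
  have zupp := hex ξ ξ0 hξ.2.le
  have zb : |z ξ| ≤ 0.1 := by
    rw [abs_le]
    constructor
    · linarith [hξ.2]
    · linarith
  rw [F_eq (zb.trans (by linarith))] at hslope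
  have x0 : 0 ≤ j * ξ := by positivity
  have x1 : j * ξ ≤ 1 / 250 := by
    have := mul_le_mul_of_nonneg_left hξ.2.le hj0.le
    linarith
  obtain ⟨hC, hS⟩ := trig_small x0 x1
  have hS2 : Real.sin (j * ξ) ≤ j * ξ := Real.sin_le x0
  have g1 : 7 ≤ ξ * j ^ 2 := by
    rw [← haj]; exact mul_le_mul_of_nonneg_right hξ.1.le hj2.le
  have g2 : ξ * j ^ 2 ≤ 12 := by
    rw [← hTj2]; exact mul_le_mul_of_nonneg_right hξ.2.le hj2.le
  have hn0 : 3 ≤ 1 / 2 * j * Real.sin (j * ξ) := by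
    have := mul_le_mul_of_nonneg_left hS hj0.le
    nlinarith
  have hn1 : 1 / 2 * j * Real.sin (j * ξ) ≤ 6 := by
    have := mul_le_mul_of_nonneg_left hS2 hj0.le
    nlinarith
  have hw := window_bound hb0 hb1 hj1 zb hC (Real.cos_le_one _) hn0 hn1
  rw [hslope, le_div_iff₀ (by linarith)] at hw
  have la := low a ⟨ha0.le, haT.le⟩
  have uT := hex T hT0.le (le_refl _)
  -- (T - a) * (β j²/500 - 10) ≤ z T - z a ≤ 10 L + 10 a
  have e1 : (β * j ^ 2 / 500 - 10) * (T - a) = β / 100 - 10 * (T - a) := by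
    have : (T - a) * j ^ 2 = 5 := by rw [sub_mul, hTj2, haj]; norm_num
    calc (β * j ^ 2 / 500 - 10) * (T - a) = β / 500 * ((T - a) * j ^ 2) - 10 * (T - a) := by ring
      _ = _ := by rw [this]; ring
  rw [e1] at hw
  have e2 : β / 100 ≤ 10 * L + 10 * T := by linarith
  have e3 : β * j / 100 ≤ 10 * (L * j) + 10 * (T * j) := by
    have := mul_le_mul_of_nonneg_right e2 hj0.le
    linarith
  rw [hLj] at e3
  linarith

/-- **Shooting.** -/
theorem exists_shoot {β j : ℝ} (hb0 : 0 < β) (hb1 : β < 1) (hj : 3000 ≤ β * j) :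
    ∃ ε ∈ Icc (0:ℝ) (1 / 2), ∃ z : ℝ → ℝ, z 0 = 0 ∧ z (Real.pi / (2 * j)) = 0 ∧
      ∀ t, HasDerivAt z (F β j (Zc β j) ε t (z t)) t := by
  have hj0 : 0 < j := by
    by_contra h
    push Not at h
    nlinarith
  have hj1 : 3000 ≤ j := by nlinarith
  have hZ := Zc_ge (j := j) hb0 hb1 hj0.le
  have hL : 0 ≤ Real.pi / (2 * j) := by positivity
  obtain ⟨z, hz, hc⟩ := exists_flow (j := j) hb0 hb1 (by linarith : 0 ≤ Zc β j) hL
  have h0 : z 0 (Real.pi / (2 * j)) ≤ 0 :=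
    end_zero hb0 hb1 (by linarith) hL (hz 0 (by simp)).1 (hz 0 (by simp)).2
  have h1 : 0 ≤ z (1 / 2) (Real.pi / (2 * j)) :=
    end_half hb0 hb1 hj (hz (1 / 2) (by simp)).1 (hz (1 / 2) (by simp)).2
  obtain ⟨ε, hε, he⟩ := intermediate_value_Icc (by norm_num : (0:ℝ) ≤ 1 / 2) hc ⟨h0, h1⟩
  exact ⟨ε, hε, z ε, (hz ε hε).1, he, (hz ε hε).2⟩

end

end Pool.Agent.TH297.NP
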