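import Mathlib
import Pool.Agent.TH297.NP.Shoot

set_option autoImplicit false

namespace Pool.Agent.TH297.NP

open Set Filter Topology
open scoped NNReal

noncomputable section

/-- The angular operator of the normalized `p`-Laplacian on functions `|x|³ G(θ)`, `β = 2 - p`:
`Δ_p^N (|x|³ G) = |x| NN β (G, G', G'')`. -/
def NN (β g g1 g2 : ℝ) : ℝ := (g2 + 9 * g) * (1 - β * (g1 ^ 2 / (9 * g ^ 2 + g1 ^ 2))) - 6 * β * g

lemma tau_ratio {g X : ℝ} (hg : g ≠ 0) :
    (g * X) ^ 2 / (9 * g ^ 2 + (g * X) ^ 2) = tau X := by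
  unfold tau
  have h1 : 9 * g ^ 2 + (g * X) ^ 2 ≠ 0 := by positivity
  have h2 : 9 + X ^ 2 ≠ 0 := by positivity
  field_simp

/-- The algebraic identity behind the construction. -/
lemma balance {β j C S z ε w : ℝ} (hb0 : 0 < β) (hb1 : β < 1) (hC : |C| ≤ 1) (h0 : 0 ≤ ε)
    (h1 : ε ≤ 1 / 2) (hw : w ≠ 0) :
    NN β (w * (1 - ε * C)) (w * (z * (1 - ε * C) + ε * j * S))
      (w * ((Psi β j C S z ε + z ^ 2) * (1 - ε * C) + 2 * z * (ε * j * S) + ε * j ^ 2 * C)) =
    -NN β (w * (1 + ε * C)) (w * (z * (1 + ε * C) - ε * j * S))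
      (w * ((Psi β j C S z ε + z ^ 2) * (1 + ε * C) - 2 * z * (ε * j * S) - ε * j ^ 2 * C)) := by
  obtain ⟨a1, a2, a3, a4⟩ := eC_bounds hC h0 h1
  have hD := Dn_bounds (j := j) (S := S) (z := z) hb0 hC h0 h1
  have hDne : Dn β j C S z ε ≠ 0 := by linarith [hD.1]
  have n1 : 1 + ε * C ≠ 0 := by linarith
  have n2 : 1 - ε * C ≠ 0 := by linarith
  have e1 : w * (z * (1 - ε * C) + ε * j * S) = (w * (1 - ε * C)) * Xh j C S z ε := by
    unfold Xh
    field_simp
  have e2 : w * (z * (1 + ε * C) - ε * j * S) = (w * (1 + ε * C)) * Xg j C S z ε := by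
    unfold Xg
    field_simp
  unfold NN
  rw [e1, e2, tau_ratio (mul_ne_zero hw n2), tau_ratio (mul_ne_zero hw n1)]
  have key : (Psi β j C S z ε + z ^ 2 + 9) * Dn β j C S z ε = β * ((tau (Xh j C S z ε) -
      tau (Xg j C S z ε)) * (2 * z * (ε * j * S) + ε * j ^ 2 * C) + 12) := by
    unfold Psi
    field_simp
    ring
  have hDd : Dn β j C S z ε = 2 - β * ((1 + ε * C) * tau (Xg j C S z ε) +
      (1 - ε * C) * tau (Xh j C S z ε)) := rfl
  rw [hDd] at key
  generalize tau (Xh j C S z ε) = th at *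
  generalize tau (Xg j C S z ε) = tg at *
  generalize Psi β j C S z ε = P at *
  linear_combination w * key

lemma hda_csub {f : ℝ → ℝ} {f' c t : ℝ} (h : HasDerivAt f f' (c - t)) :
    HasDerivAt (fun s => f (c - s)) (-f') t := by
  have h2 : HasDerivAt (fun s : ℝ => c - s) (-1) t := by
    simpa using (hasDerivAt_id t).const_sub c
  have := HasDerivAt.comp t (h₂ := f) (h := fun s : ℝ => c - s) h h2
  simpa [Function.comp_def] using this

lemma hda_addc {f : ℝ → ℝ} {f' c t : ℝ} (h : HasDerivAt f f' (t + c)) :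
    HasDerivAt (fun s => f (s + c)) f' t := by
  have h2 : HasDerivAt (fun s : ℝ => s + c) 1 t := by
    simpa using (hasDerivAt_id t).add_const c
  have := HasDerivAt.comp t (h₂ := f) (h := fun s : ℝ => s + c) h h2
  simpa [Function.comp_def] using this

lemma hda_neg {f : ℝ → ℝ} {f' t : ℝ} (h : HasDerivAt f f' (-t)) :
    HasDerivAt (fun s => f (-s)) (-f') t := by
  have h1 : HasDerivAt f f' (0 - t) := by simpa using h
  have := hda_csub h1
  simpa using this

theorem exists_z {β : ℝ} (hb0 : 0 < β) (hb1 : β < 1) :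
    ∃ (j : ℕ) (ε : ℝ) (z : ℝ → ℝ), 0 < j ∧ 0 ≤ ε ∧ ε ≤ 1 / 2 ∧
      (∀ t, HasDerivAt z (Psi β j (Real.cos (j * t)) (Real.sin (j * t)) (z t) ε) t) ∧
      (∀ t, z (-t) = -z t) ∧ (∀ t, z (Real.pi / j - t) = -z t) ∧
      Continuous (fun t => Psi β j (Real.cos (j * t)) (Real.sin (j * t)) (z t) ε) := by
  obtain ⟨j, hj⟩ := exists_nat_ge (3000 / β)
  rw [div_le_iff₀ hb0] at hj
  have hj3 : 3000 ≤ β * j := by linarith
  have hj0 : (0:ℝ) < j := by
    by_contra h
    push Not at h
    nlinarith
  have hj1 : (3000:ℝ) ≤ j := by nlinarith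
  have hjN : 0 < j := by exact_mod_cast hj0
  obtain ⟨ε, hε, z, hz0, hzL, hz⟩ := exists_shoot hb0 hb1 hj3
  set Z := Zc β j with hZdef
  have hZ : 1 ≤ Z := Zc_ge hb0 hb1 hj0.le
  set L := Real.pi / (2 * j) with hL
  have hL0 : 0 < L := by rw [hL]; positivity
  have h2L : Real.pi / j = 2 * L := by rw [hL]; field_simp
  obtain ⟨K, hK⟩ := F_lip (j := j) hb0 hb1 (by linarith : 0 ≤ Z) hε
  -- odd about zero
  have hodd : ∀ t, z (-t) = -z t := by
    have h1 : (fun t => -z (-t)) = z := by
      refine ODE_solution_unique_univ (v := F β j Z ε) (s := fun _ => univ) (K := K) (t₀ := 0)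
        (fun t => (hK t).lipschitzOnWith) (fun t => ⟨?_, mem_univ _⟩)
        (fun t => ⟨hz t, mem_univ _⟩) (by simp [hz0])
      have h2 : HasDerivAt (fun t => -z (-t)) (F β j Z ε (-t) (z (-t))) t := by
        have := (hda_neg (hz (-t))).fun_neg
        rwa [neg_neg] at this
      refine h2.congr_deriv ?_
      symm
      unfold F
      rw [cl_neg (by linarith)]
      have e1 : Real.sin (j * t) = -Real.sin (j * -t) := by
        rw [mul_neg, Real.sin_neg, neg_neg]
      have e2 : Real.cos (j * t) = Real.cos (j * -t) := by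
        rw [mul_neg, Real.cos_neg]
      rw [e1, e2, Psi_neg]
    intro t
    have h2 : -z (-t) = z t := congrFun h1 t
    linarith
  -- odd about L
  have hrefl : ∀ t, z (2 * L - t) = -z t := by
    have h1 : (fun t => -z (2 * L - t)) = z := by
      refine ODE_solution_unique_univ (v := F β j Z ε) (s := fun _ => univ) (K := K) (t₀ := L)
        (fun t => (hK t).lipschitzOnWith) (fun t => ⟨?_, mem_univ _⟩)
        (fun t => ⟨hz t, mem_univ _⟩) (by
          have : 2 * L - L = L := by ring
          simp only [this, hzL, neg_zero])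
      have h2 : HasDerivAt (fun t => -z (2 * L - t)) (F β j Z ε (2 * L - t) (z (2 * L - t))) t := by
        have := (hda_csub (hz (2 * L - t))).fun_neg
        rwa [neg_neg] at this
      refine h2.congr_deriv ?_
      symm
      unfold F
      rw [cl_neg (by linarith)]
      have e0 : (j : ℝ) * (2 * L - t) = Real.pi - j * t := by
        rw [← h2L]; field_simp
      have e1 : Real.sin (j * t) = Real.sin (j * (2 * L - t)) := by
        rw [e0, Real.sin_pi_sub]
      have e2 : Real.cos (j * t) = -Real.cos (j * (2 * L - t)) := by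
        rw [e0, Real.cos_pi_sub, neg_neg]
      rw [e1, e2, Psi_refl]
    intro t
    have h2 : -z (2 * L - t) = z t := congrFun h1 t
    linarith
  -- sign of the field at the clamping levels
  have hneg : ∀ t, ∀ y, |y| = Z → F β j Z ε t y < 0 := by
    intro t y hy
    rw [F_eq hy.le]
    exact Psi_neg_at hb0 hb1 (by linarith) (Real.abs_cos_le_one _) (Real.abs_sin_le_one _)
      hε.1 hε.2 (by rw [hy, hZdef]; rfl)
  have hup : ∀ t ∈ Icc 0 L, z t ≤ Z := by
    refine barrier_upper (B := fun _ => Z) (B' := fun _ => 0) hz (fun t => hasDerivAt_const t Z)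
      (by simp only [hz0]; linarith) (fun t _ he => ?_)
    have he' : z t = Z := he
    rw [he']
    exact hneg t Z (abs_of_nonneg (by linarith))
  have hlo : ∀ t ∈ Icc 0 L, -Z ≤ z t := by
    intro t ht
    by_contra hcon
    push Not at hcon
    have := barrier_upper (B := fun _ => -Z) (B' := fun _ => 0) hz (fun t => hasDerivAt_const t (-Z))
      (a := t) (b := L) hcon.le (fun s _ he => by
        have he' : z s = -Z := he
        rw [he']
        exact hneg s (-Z) (by rw [abs_neg]; exact abs_of_nonneg (by linarith))) L ⟨ht.2, le_refl _⟩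
    simp only [hzL] at this
    linarith
  have hbd1 : ∀ t ∈ Icc 0 L, |z t| ≤ Z := fun t ht => abs_le.mpr ⟨hlo t ht, hup t ht⟩
  have hbd2 : ∀ t ∈ Icc 0 (2 * L), |z t| ≤ Z := by
    intro t ht
    rcases le_total t L with h | h
    · exact hbd1 t ⟨ht.1, h⟩
    · have := hrefl t
      rw [← abs_neg, ← this]
      exact hbd1 _ ⟨by linarith [ht.2], by linarith⟩
  have hper : Function.Periodic z (2 * L) := by
    intro t
    have h1 := hrefl (-t)
    rw [sub_neg_eq_add, add_comm] at h1
    rw [h1, hodd, neg_neg]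
  have hbd : ∀ t, |z t| ≤ Z := by
    intro t
    obtain ⟨s, hs, he⟩ := hper.exists_mem_Ico₀ (by linarith) t
    rw [he]
    exact hbd2 s ⟨hs.1, hs.2.le⟩
  refine ⟨j, ε, z, hjN, hε.1, hε.2, fun t => ?_, hodd, fun t => by rw [h2L]; exact hrefl t, ?_⟩
  · have := hz t
    rwa [F_eq (hbd t)] at this
  · have hc : ContinuousOn (PsiF β j) (box Z) := by
      intro q hq
      exact (contDiffAt_PsiF hb0 hb1 hq).continuousAt.continuousWithinAt
    have hzc : Continuous z := continuous_iff_continuousAt.mpr fun t => (hz t).continuousAt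
    refine hc.comp_continuous (f := fun t => ((Real.cos (j * t), Real.sin (j * t), z t, ε) :
      ℝ × ℝ × ℝ × ℝ)) (by fun_prop) (fun t => ?_)
    exact ⟨⟨Real.neg_one_le_cos _, Real.cos_le_one _⟩, ⟨Real.neg_one_le_sin _, Real.sin_le_one _⟩,
      abs_le.mp (hbd t), hε⟩

theorem exists_profile {β : ℝ} (hb0 : 0 < β) (hb1 : β < 1) :
    ∃ (d : ℝ) (G G1 G2 : ℝ → ℝ), (∀ t, 0 < G t) ∧ (∀ t, HasDerivAt G (G1 t) t) ∧
      (∀ t, HasDerivAt G1 (G2 t) t) ∧ Continuous G2 ∧ Function.Periodic G (2 * Real.pi) ∧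
      Function.Periodic G1 (2 * Real.pi) ∧ Function.Periodic G2 (2 * Real.pi) ∧
      ∀ t, NN β (G (t + d)) (G1 (t + d)) (G2 (t + d)) = -NN β (G t) (G1 t) (G2 t) := by
  obtain ⟨j, ε, z, hj, h0, h1, hz, hodd, hrefl, hcont⟩ := exists_z hb0 hb1
  have hj0 : (0:ℝ) < j := by exact_mod_cast hj
  set d := Real.pi / j with hd
  have hjd : (j:ℝ) * d = Real.pi := by rw [hd]; field_simp
  have hzc : Continuous z := continuous_iff_continuousAt.mpr fun t => (hz t).continuousAt
  have hper : ∀ t, z (t + d) = z t := by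
    intro t
    have h1 := hrefl (-t)
    rw [sub_neg_eq_add, add_comm] at h1
    rw [h1, hodd, neg_neg]
  set W : ℝ → ℝ := fun t => ∫ s in (0:ℝ)..t, z s with hW
  have hWd : ∀ t, HasDerivAt W (z t) t := fun t => (hzc.integral_hasStrictDerivAt 0 t).hasDerivAt
  have hW0 : W 0 = 0 := by simp [hW]
  have hWdd : W d = 0 := by
    have hdd : ∀ t, HasDerivAt (fun t => W (d - t) - W t) 0 t := fun t =>
      ((hda_csub (hWd (d - t))).fun_sub (hWd t)).congr_deriv (by rw [hrefl]; ring)
    have hc := is_const_of_deriv_eq_zero (fun t => (hdd t).differentiableAt)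
      (fun t => (hdd t).deriv) d 0
    simp only [sub_self, sub_zero, hW0] at hc
    linarith
  have hWper : ∀ t, W (t + d) = W t := by
    intro t
    have hdd : ∀ t, HasDerivAt (fun t => W (t + d) - W t) 0 t := fun t =>
      ((hda_addc (hWd (t + d))).fun_sub (hWd t)).congr_deriv (by rw [hper]; ring)
    have hc := is_const_of_deriv_eq_zero (fun t => (hdd t).differentiableAt)
      (fun t => (hdd t).deriv) t 0
    simp only [zero_add, hW0, hWdd] at hc
    linarith
  set w : ℝ → ℝ := fun t => Real.exp (W t) with hw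
  have hwd : ∀ t, HasDerivAt w (w t * z t) t := fun t => (hWd t).exp
  have hwpos : ∀ t, 0 < w t := fun t => Real.exp_pos _
  have hwper : ∀ t, w (t + d) = w t := fun t => by simp only [hw, hWper]
  have hwc : Continuous w := continuous_iff_continuousAt.mpr fun t => (hwd t).continuousAt
  set P : ℝ → ℝ := fun t => Psi β j (Real.cos (j * t)) (Real.sin (j * t)) (z t) ε with hP
  have hcosd : ∀ t : ℝ, HasDerivAt (fun t => Real.cos (j * t)) (-(j * Real.sin (j * t))) t := by
    intro t
    have h1 : HasDerivAt (fun s : ℝ => (j:ℝ) * s) j t := by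
      simpa using (hasDerivAt_id t).const_mul (j:ℝ)
    exact h1.cos.congr_deriv (by ring)
  have hsind : ∀ t : ℝ, HasDerivAt (fun t => Real.sin (j * t)) (j * Real.cos (j * t)) t := by
    intro t
    have h1 : HasDerivAt (fun s : ℝ => (j:ℝ) * s) j t := by
      simpa using (hasDerivAt_id t).const_mul (j:ℝ)
    exact h1.sin.congr_deriv (by ring)
  have hcosp : ∀ t : ℝ, Real.cos (j * (t + d)) = -Real.cos (j * t) := by
    intro t
    rw [mul_add, hjd, Real.cos_add_pi]
  have hsinp : ∀ t : ℝ, Real.sin (j * (t + d)) = -Real.sin (j * t) := by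
    intro t
    rw [mul_add, hjd, Real.sin_add_pi]
  have hPp : ∀ t, P (t + d) = P t := by
    intro t
    simp only [hP]
    rw [hcosp, hsinp, hper]
    have h2 := Psi_refl β j (Real.cos (j * t)) (-Real.sin (j * t)) (-z t) ε
    rw [neg_neg] at h2
    rw [h2, Psi_neg]
  -- the profile
  set G : ℝ → ℝ := fun t => w t * (1 + ε * Real.cos (j * t)) with hG
  set G1 : ℝ → ℝ := fun t => w t * (z t * (1 + ε * Real.cos (j * t)) - ε * j * Real.sin (j * t))
    with hG1
  set G2 : ℝ → ℝ := fun t => w t * ((P t + z t ^ 2) * (1 + ε * Real.cos (j * t)) -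
    2 * z t * (ε * j * Real.sin (j * t)) - ε * j ^ 2 * Real.cos (j * t)) with hG2
  have hGd : ∀ t, HasDerivAt G (G1 t) t := by
    intro t
    have := (hwd t).fun_mul (((hcosd t).const_mul ε).const_add 1)
    refine this.congr_deriv ?_
    simp only [hG1]; ring
  have hG1d : ∀ t, HasDerivAt G1 (G2 t) t := by
    intro t
    have h2 := (hz t).fun_mul (((hcosd t).const_mul ε).const_add 1)
    have h3 := (hsind t).const_mul (ε * j)
    have := (hwd t).fun_mul (h2.fun_sub h3)
    refine this.congr_deriv ?_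
    simp only [hG2, hP]; ring
  have hGper : ∀ t, G (t + 2 * Real.pi) = G t := by
    have hwp : ∀ (n : ℕ) t, w (t + n * d) = w t := by
      intro n
      induction n with
      | zero => intro t; simp
      | succ n ih =>
        intro t
        have e : t + ((n + 1 : ℕ) : ℝ) * d = (t + n * d) + d := by push_cast; ring
        rw [e, hwper, ih]
    intro t
    have e1 : 2 * Real.pi = ((2 * j : ℕ) : ℝ) * d := by push_cast; rw [mul_assoc, hjd]
    have e2 : Real.cos (j * (t + 2 * Real.pi)) = Real.cos (j * t) := by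
      rw [mul_add]
      exact Real.cos_add_nat_mul_two_pi _ j
    simp only [hG]
    rw [e2]
    congr 1
    rw [e1, hwp]
  have hG1per : ∀ t, G1 (t + 2 * Real.pi) = G1 t := by
    intro t
    have h2 : HasDerivAt (fun s => G (s + 2 * Real.pi)) (G1 (t + 2 * Real.pi)) t :=
      hda_addc (hGd (t + 2 * Real.pi))
    have h3 : (fun s => G (s + 2 * Real.pi)) = G := funext hGper
    rw [h3] at h2
    exact h2.unique (hGd t)
  have hG2per : ∀ t, G2 (t + 2 * Real.pi) = G2 t := by
    intro t
    have h2 : HasDerivAt (fun s => G1 (s + 2 * Real.pi)) (G2 (t + 2 * Real.pi)) t :=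
      hda_addc (hG1d (t + 2 * Real.pi))
    have h3 : (fun s => G1 (s + 2 * Real.pi)) = G1 := funext hG1per
    rw [h3] at h2
    exact h2.unique (hG1d t)
  refine ⟨d, G, G1, G2, fun t => ?_, hGd, hG1d, ?_, hGper, hG1per, hG2per, fun t => ?_⟩
  · have := (eC_bounds (Real.abs_cos_le_one (j * t)) h0 h1).1
    exact mul_pos (hwpos t) (by linarith)
  · simp only [hG2]
    have : Continuous P := hcont
    fun_prop
  · have hb := balance (j := j) (S := Real.sin (j * t)) (z := z t) hb0 hb1
      (Real.abs_cos_le_one (j * t)) h0 h1 (hwpos t).ne'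
    have g0 : G (t + d) = w t * (1 - ε * Real.cos (j * t)) := by
      simp only [hG]
      rw [hwper, hcosp]; ring
    have g1 : G1 (t + d) = w t * (z t * (1 - ε * Real.cos (j * t)) + ε * j * Real.sin (j * t)) := by
      simp only [hG1]
      rw [hwper, hcosp, hsinp, hper]; ring
    have g2 : G2 (t + d) = w t * ((P t + z t ^ 2) * (1 - ε * Real.cos (j * t)) +
        2 * z t * (ε * j * Real.sin (j * t)) + ε * j ^ 2 * Real.cos (j * t)) := by
      simp only [hG2]
      rw [hwper, hcosp, hsinp, hper, hPp]; ring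
    rw [g0, g1, g2]
    exact hb

end

end Pool.Agent.TH297.NP
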