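import Mathlib

set_option autoImplicit false

/-!
# Viscosity solutions of the normalized `p`-Laplace equation: definitions and line calculus
-/

namespace Pool.Agent.TH297.NP

open Set Filter Topology
open scoped InnerProductSpace Gradient Laplacian

noncomputable section

section defs

variable {E : Type*} [NormedAddCommGroup E] [InnerProductSpace ℝ E] [FiniteDimensional ℝ E]

/-- `Δφ(x) + (p-2) ⟨D²φ(x) e, e⟩`: the value of the normalized `p`-Laplacian of `φ` at `x` when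
the direction of the gradient is the unit vector `e`. -/
def opDir (p : ℝ) (φ : E → ℝ) (x e : E) : ℝ :=
  (Δ φ) x + (p - 2) * fderiv ℝ (fderiv ℝ φ) x e e

/-- The normalized `p`-Laplacian `Δφ + (p-2)|∇φ|⁻²⟨D²φ ∇φ, ∇φ⟩` at a point with `∇φ(x) ≠ 0`. -/
def normPLap (p : ℝ) (φ : E → ℝ) (x : E) : ℝ :=
  (Δ φ) x + (p - 2) * ((‖∇ φ x‖ ^ 2)⁻¹ * fderiv ℝ (fderiv ℝ φ) x (∇ φ x) (∇ φ x))

/-- Viscosity subsolution of `Δ_p^N u = f` in `Ω`: whenever `u - φ` has a local maximum at a point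
`x ∈ Ω`, `φ` being `C²` near `x`, one has `Δ_p^N φ(x) ≥ f(x)` if `∇φ(x) ≠ 0`, and
`max_{|e| = 1} (Δφ(x) + (p-2)⟨D²φ(x) e, e⟩) ≥ f(x)` (the upper semicontinuous envelope of the
operator at zero gradient) if `∇φ(x) = 0`. -/
def IsViscSub (p : ℝ) (Ω : Set E) (f u : E → ℝ) : Prop :=
  ∀ x ∈ Ω, ∀ φ : E → ℝ, ContDiffAt ℝ 2 φ x → IsLocalMax (fun y => u y - φ y) x →
    (∇ φ x ≠ 0 → f x ≤ normPLap p φ x) ∧
    (∇ φ x = 0 → ∃ e : E, ‖e‖ = 1 ∧ f x ≤ opDir p φ x e)

/-- Viscosity supersolution of `Δ_p^N u = f` in `Ω` (lower semicontinuous envelope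
`min_{|e| = 1}` at zero gradient). -/
def IsViscSuper (p : ℝ) (Ω : Set E) (f u : E → ℝ) : Prop :=
  ∀ x ∈ Ω, ∀ φ : E → ℝ, ContDiffAt ℝ 2 φ x → IsLocalMin (fun y => u y - φ y) x →
    (∇ φ x ≠ 0 → normPLap p φ x ≤ f x) ∧
    (∇ φ x = 0 → ∃ e : E, ‖e‖ = 1 ∧ opDir p φ x e ≤ f x)

/-- Viscosity solution of the Dirichlet problem `Δ_p^N u = f` in `Ω`, `u = g` on `∂Ω`,
continuous up to the boundary. -/
structure IsDirichletSol (p : ℝ) (Ω : Set E) (f g u : E → ℝ) : Prop where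
  cont : ContinuousOn u (closure Ω)
  bdry : ∀ x ∈ frontier Ω, u x = g x
  sub : IsViscSub p Ω f u
  super : IsViscSuper p Ω f u

lemma normPLap_eq (p : ℝ) (φ : E → ℝ) (x e : E) {c : ℝ} (hc : 0 < c) (he : ‖e‖ = 1)
    (h : ∇ φ x = c • e) : normPLap p φ x = opDir p φ x e := by
  unfold normPLap opDir
  rw [h, norm_smul, he, Real.norm_of_nonneg hc.le, mul_one]
  simp only [map_smul, FunLike.coe_smul, Pi.smul_apply, smul_eq_mul]
  field_simp

lemma gradient_neg' (φ : E → ℝ) (x : E) : ∇ (fun y => -φ y) x = -∇ φ x := by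
  unfold gradient
  have : fderiv ℝ (fun y => -φ y) x = -fderiv ℝ φ x := fderiv_fun_neg
  rw [this, map_neg]

omit [FiniteDimensional ℝ E] in
lemma fderiv2_neg (φ : E → ℝ) (x y z : E) :
    fderiv ℝ (fderiv ℝ (fun y => -φ y)) x y z = -fderiv ℝ (fderiv ℝ φ) x y z := by
  have h1 : fderiv ℝ (fun y => -φ y) = fun z => -fderiv ℝ φ z := by
    ext1 z
    exact fderiv_fun_neg
  rw [h1, fderiv_fun_neg]
  simp

lemma opDir_neg (p : ℝ) (φ : E → ℝ) (x e : E) :
    opDir p (fun y => -φ y) x e = -opDir p φ x e := by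
  unfold opDir
  rw [fderiv2_neg]
  have : Δ (fun y => -φ y) = -Δ φ := InnerProductSpace.laplacian_neg
  rw [this, Pi.neg_apply]
  ring

lemma normPLap_neg (p : ℝ) (φ : E → ℝ) (x : E) :
    normPLap p (fun y => -φ y) x = -normPLap p φ x := by
  unfold normPLap
  rw [fderiv2_neg, gradient_neg']
  have : Δ (fun y => -φ y) = -Δ φ := InnerProductSpace.laplacian_neg
  rw [this, Pi.neg_apply]
  simp only [norm_neg, map_neg, neg_apply]
  ring

lemma sub_of_super_neg {p : ℝ} {Ω : Set E} {f u : E → ℝ} (h : IsViscSuper p Ω f u) :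
    IsViscSub p Ω (fun x => -f x) (fun x => -u x) := by
  intro x hx φ hφ hmax
  have hmin : IsLocalMin (fun y => u y - -φ y) x := by
    have := hmax.neg
    refine this.congr (Eventually.of_forall fun y => ?_)
    ring
  obtain ⟨h1, h2⟩ := h x hx (fun y => -φ y) hφ.neg hmin
  rw [gradient_neg'] at h1 h2
  constructor
  · intro hne
    have := h1 (neg_ne_zero.mpr hne)
    rw [normPLap_neg] at this
    linarith
  · intro h0
    obtain ⟨e, he, h3⟩ := h2 (neg_eq_zero.mpr h0)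
    rw [opDir_neg] at h3
    exact ⟨e, he, by linarith⟩

lemma super_of_sub_neg {p : ℝ} {Ω : Set E} {f u : E → ℝ} (h : IsViscSub p Ω f u) :
    IsViscSuper p Ω (fun x => -f x) (fun x => -u x) := by
  intro x hx φ hφ hmin
  have hmax : IsLocalMax (fun y => u y - -φ y) x := by
    have := hmin.neg
    refine this.congr (Eventually.of_forall fun y => ?_)
    ring
  obtain ⟨h1, h2⟩ := h x hx (fun y => -φ y) hφ.neg hmax
  rw [gradient_neg'] at h1 h2
  constructor
  · intro hne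
    have := h1 (neg_ne_zero.mpr hne)
    rw [normPLap_neg] at this
    linarith
  · intro h0
    obtain ⟨e, he, h3⟩ := h2 (neg_eq_zero.mpr h0)
    rw [opDir_neg] at h3
    exact ⟨e, he, by linarith⟩

lemma sub_add_const {p : ℝ} {Ω : Set E} {f u : E → ℝ} (h : IsViscSub p Ω f u) (c : ℝ) :
    IsViscSub p Ω f (fun x => u x + c) := by
  intro x hx φ hφ hmax
  refine h x hx φ hφ ?_
  filter_upwards [hmax] with y hy
  linarith

lemma super_add_const {p : ℝ} {Ω : Set E} {f u : E → ℝ} (h : IsViscSuper p Ω f u) (c : ℝ) :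
    IsViscSuper p Ω f (fun x => u x + c) := by
  intro x hx φ hφ hmax
  refine h x hx φ hφ ?_
  filter_upwards [hmax] with y hy
  linarith

end defs

section line

/-- Second-order necessary condition in one variable. -/
lemma second_order {h h1 : ℝ → ℝ} {h2 : ℝ} (hmin : IsLocalMin h 0)
    (hd : ∀ᶠ t in 𝓝 (0:ℝ), HasDerivAt h (h1 t) t) (hd2 : HasDerivAt h1 h2 0) :
    h1 0 = 0 ∧ 0 ≤ h2 := by
  have h0 : h1 0 = 0 := hmin.hasDerivAt_eq_zero hd.self_of_nhds
  refine ⟨h0, ?_⟩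
  by_contra hneg
  push Not at hneg
  have he : deriv h =ᶠ[𝓝 0] h1 := hd.mono fun t ht => ht.deriv
  have hdd : deriv (deriv h) 0 = h2 := by
    rw [he.deriv_eq, hd2.deriv]
  have hmax : IsLocalMax h 0 := isLocalMax_of_deriv_deriv_neg (by rw [hdd]; exact hneg)
    (by rw [he.self_of_nhds, h0]) hd.self_of_nhds.continuousAt
  have hc : h =ᶠ[𝓝 0] fun _ => h 0 := by
    filter_upwards [hmin, hmax] with t a b
    exact le_antisymm b a
  have hc2 : deriv h =ᶠ[𝓝 0] fun _ => 0 := by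
    have := hc.deriv
    refine this.trans (Eventually.of_forall fun t => ?_)
    simp
  have : deriv (deriv h) 0 = 0 := by
    rw [hc2.deriv_eq]; simp
  rw [hdd] at this
  linarith

variable {E : Type*} [NormedAddCommGroup E] [InnerProductSpace ℝ E]

/-- The line derivatives of a `C²` function. -/
lemma line_derivs {φ : E → ℝ} {x : E} (hφ : ContDiffAt ℝ 2 φ x) (y : E) :
    (∀ᶠ t in 𝓝 (0:ℝ), HasDerivAt (fun t : ℝ => φ (x + t • y)) (fderiv ℝ φ (x + t • y) y) t) ∧
    HasDerivAt (fun t : ℝ => fderiv ℝ φ (x + t • y) y) (fderiv ℝ (fderiv ℝ φ) x y y) 0 := by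
  have hl : ∀ t : ℝ, HasDerivAt (fun t : ℝ => x + t • y) y t := by
    intro t
    simpa using ((hasDerivAt_id t).smul_const y).const_add x
  constructor
  · have h1 : ∀ᶠ z in 𝓝 x, DifferentiableAt ℝ φ z := by
      have := hφ.eventually (by simp)
      exact this.mono fun z hz => hz.differentiableAt (by norm_num)
    have h2 : Tendsto (fun t : ℝ => x + t • y) (𝓝 0) (𝓝 x) := by
      have := (hl 0).continuousAt
      simpa [ContinuousAt] using this
    filter_upwards [h2.eventually h1] with t ht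
    exact ht.hasFDerivAt.comp_hasDerivAt t (hl t)
  · have h3 : DifferentiableAt ℝ (fderiv ℝ φ) x := by
      have : ContDiffAt ℝ 1 (fderiv ℝ φ) x := hφ.fderiv_right (by norm_num)
      exact this.differentiableAt (by norm_num)
    have h4 : HasFDerivAt (fderiv ℝ φ) (fderiv ℝ (fderiv ℝ φ) x) (x + (0:ℝ) • y) := by
      simpa using h3.hasFDerivAt
    have h5 := h4.comp_hasDerivAt (0:ℝ) (hl 0)
    have h6 := h5.clm_apply (hasDerivAt_const (0:ℝ) y)
    simpa [Function.comp_def] using h6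

/-- `u` has line derivatives `A`, `B` of first and second order at `x`. -/
def Jet (u : E → ℝ) (x : E) (A B : E → ℝ) : Prop :=
  ∀ y : E, ∃ u1 : ℝ → ℝ, (∀ᶠ t in 𝓝 (0:ℝ), HasDerivAt (fun t : ℝ => u (x + t • y)) (u1 t) t) ∧
    u1 0 = A y ∧ HasDerivAt u1 (B y) 0

lemma line_min {g : E → ℝ} {x : E} (h : IsLocalMin g x) (y : E) :
    IsLocalMin (fun t : ℝ => g (x + t • y)) 0 := by
  have h2 : Tendsto (fun t : ℝ => x + t • y) (𝓝 0) (𝓝 x) := by
    have : Continuous (fun t : ℝ => x + t • y) := by fun_prop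
    have h3 := this.tendsto 0
    simpa using h3
  have h3 := h2.eventually h
  filter_upwards [h3] with t ht
  simpa using ht

lemma jet_max {u φ : E → ℝ} {x : E} {A B : E → ℝ} (hj : Jet u x A B) (hφ : ContDiffAt ℝ 2 φ x)
    (hmax : IsLocalMax (fun y => u y - φ y) x) (y : E) :
    fderiv ℝ φ x y = A y ∧ B y ≤ fderiv ℝ (fderiv ℝ φ) x y y := by
  obtain ⟨u1, hu1, hA, hB⟩ := hj y
  obtain ⟨hf1, hf2⟩ := line_derivs hφ y
  have hmin : IsLocalMin (fun y => φ y - u y) x := by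
    have := hmax.neg
    refine this.congr (Eventually.of_forall fun y => ?_)
    ring
  have hl := line_min hmin y
  have := second_order (h := fun t => φ (x + t • y) - u (x + t • y))
    (h1 := fun t => fderiv ℝ φ (x + t • y) y - u1 t) hl
    (by filter_upwards [hu1, hf1] with t a b; exact b.fun_sub a) (hf2.fun_sub hB)
  simp only [zero_smul, add_zero] at this
  exact ⟨by linarith [this.1], by linarith [this.2]⟩

lemma jet_min {u φ : E → ℝ} {x : E} {A B : E → ℝ} (hj : Jet u x A B) (hφ : ContDiffAt ℝ 2 φ x)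
    (hmin : IsLocalMin (fun y => u y - φ y) x) (y : E) :
    fderiv ℝ φ x y = A y ∧ fderiv ℝ (fderiv ℝ φ) x y y ≤ B y := by
  obtain ⟨u1, hu1, hA, hB⟩ := hj y
  obtain ⟨hf1, hf2⟩ := line_derivs hφ y
  have hl := line_min hmin y
  have := second_order (h := fun t => u (x + t • y) - φ (x + t • y))
    (h1 := fun t => u1 t - fderiv ℝ φ (x + t • y) y) hl
    (by filter_upwards [hu1, hf1] with t a b; exact a.fun_sub b) (hB.fun_sub hf2)
  simp only [zero_smul, add_zero] at this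
  exact ⟨by linarith [this.1], by linarith [this.2]⟩

/-- Second-order behaviour of a test function touching a function `o(|x|²)` at the origin. -/
lemma flat_max {u φ : E → ℝ} (h0 : u 0 = 0) (hu : ∀ δ > 0, ∀ᶠ x in 𝓝 (0:E), |u x| ≤ δ * ‖x‖ ^ 2)
    (hφ : ContDiffAt ℝ 2 φ 0) (hmax : IsLocalMax (fun y => u y - φ y) 0) (y : E) :
    fderiv ℝ φ 0 y = 0 ∧ 0 ≤ fderiv ℝ (fderiv ℝ φ) 0 y y := by
  obtain ⟨hf1, hf2⟩ := line_derivs hφ y
  have key : ∀ δ > 0, fderiv ℝ φ 0 y = 0 ∧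
      0 ≤ fderiv ℝ (fderiv ℝ φ) 0 y y + 2 * δ * ‖y‖ ^ 2 := by
    intro δ hδ
    have hmin : IsLocalMin (fun z : E => φ z + δ * ‖z‖ ^ 2) 0 := by
      filter_upwards [hmax, hu δ hδ] with z a b
      simp only [h0] at a
      have := neg_le_of_abs_le b
      simp
      linarith
    have hl := line_min hmin y
    have hq : ∀ t : ℝ, HasDerivAt (fun t : ℝ => δ * ‖(0:E) + t • y‖ ^ 2) (δ * (2 * t) * ‖y‖ ^ 2) t := by
      intro t
      have h1 : HasDerivAt (fun t : ℝ => δ * (t ^ 2) * ‖y‖ ^ 2) (δ * (2 * t) * ‖y‖ ^ 2) t := by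
        have := ((hasDerivAt_pow 2 t).const_mul δ).mul_const (‖y‖ ^ 2)
        simpa using this
      refine h1.congr_of_eventuallyEq (Eventually.of_forall fun s => ?_)
      simp only [zero_add, norm_smul, Real.norm_eq_abs, mul_pow, sq_abs]
      ring
    have hq2 : HasDerivAt (fun t : ℝ => δ * (2 * t) * ‖y‖ ^ 2) (2 * δ * ‖y‖ ^ 2) 0 := by
      have := (((hasDerivAt_id (0:ℝ)).const_mul 2).const_mul δ).mul_const (‖y‖ ^ 2)
      refine (this.congr_deriv ?_)
      ring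
    have := second_order (h := fun t => φ (0 + t • y) + δ * ‖(0:E) + t • y‖ ^ 2)
      (h1 := fun t => fderiv ℝ φ (0 + t • y) y + δ * (2 * t) * ‖y‖ ^ 2) hl
      (by filter_upwards [hf1] with t a; exact a.fun_add (hq t)) (hf2.fun_add hq2)
    simp only [zero_smul, add_zero, mul_zero, zero_mul] at this
    exact this
  refine ⟨(key 1 one_pos).1, ?_⟩
  by_contra hneg
  push Not at hneg
  have h1 : 0 < ‖y‖ ^ 2 + 1 := by positivity
  have := (key (-fderiv ℝ (fderiv ℝ φ) 0 y y / (4 * (‖y‖ ^ 2 + 1)))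
    (div_pos (by linarith) (by positivity))).2
  have h2 : 2 * (-fderiv ℝ (fderiv ℝ φ) 0 y y / (4 * (‖y‖ ^ 2 + 1))) * ‖y‖ ^ 2 ≤
      -fderiv ℝ (fderiv ℝ φ) 0 y y / 2 := by
    rw [div_eq_mul_inv, mul_inv]
    have h3 : (‖y‖ ^ 2 + 1)⁻¹ * ‖y‖ ^ 2 ≤ 1 := by
      rw [inv_mul_le_iff₀ h1]; linarith
    nlinarith
  linarith

lemma flat_min {u φ : E → ℝ} (h0 : u 0 = 0) (hu : ∀ δ > 0, ∀ᶠ x in 𝓝 (0:E), |u x| ≤ δ * ‖x‖ ^ 2)
    (hφ : ContDiffAt ℝ 2 φ 0) (hmin : IsLocalMin (fun y => u y - φ y) 0) (y : E) :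
    fderiv ℝ φ 0 y = 0 ∧ fderiv ℝ (fderiv ℝ φ) 0 y y ≤ 0 := by
  have hmax : IsLocalMax (fun y => -u y - -φ y) 0 := by
    have := hmin.neg
    refine this.congr (Eventually.of_forall fun y => ?_)
    ring
  have := flat_max (u := fun x => -u x) (φ := fun x => -φ x) (by simp [h0])
    (by simpa using hu) hφ.neg hmax y
  have h1 : fderiv ℝ (fun y => -φ y) 0 = -fderiv ℝ φ 0 := fderiv_fun_neg
  have h2 : fderiv ℝ (fun y => -φ y) = fun z => -fderiv ℝ φ z := by
    ext1 z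
    exact fderiv_fun_neg
  rw [h2, fderiv_fun_neg] at this
  simp only [neg_apply] at this
  exact ⟨by linarith [this.1], by linarith [this.2]⟩

end line

end

end Pool.Agent.TH297.NP
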