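import Mathlib
import Pool.Agent.TH297.NP.Visc
import Pool.Agent.TH297.NP.Profile

set_option autoImplicit false

namespace Pool.Agent.TH297.NP

open Set Filter Topology
open scoped InnerProductSpace Gradient Laplacian

noncomputable section

/-- The Euclidean plane. -/
abbrev E2 := EuclideanSpace ℝ (Fin 2)

/-- Identification of the plane with `ℂ`. -/
def LC : E2 ≃ₗᵢ[ℝ] ℂ := Complex.orthonormalBasisOneI.repr.symm

lemma LC_norm (x : E2) : ‖LC x‖ = ‖x‖ := LC.norm_map x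

lemma LC_ne {x : E2} (hx : x ≠ 0) : LC x ≠ 0 := by
  rw [← norm_pos_iff, LC_norm]
  exact norm_pos_iff.mpr hx

/-- The function `|x|^k H(θ)`. -/
def hom (k : ℕ) (H : ℝ → ℝ) (x : E2) : ℝ := ‖x‖ ^ k * H (Complex.arg (LC x))

lemma arg_mul {H : ℝ → ℝ} (hp : Function.Periodic H (2 * Real.pi)) {z w : ℂ} (hz : z ≠ 0)
    (hw : w ≠ 0) : H (Complex.arg (z * w)) = H (Complex.arg z + Complex.arg w) := by
  have h := Complex.arg_mul_coe_angle hz hw
  rw [← Real.Angle.coe_add, Real.Angle.angle_eq_iff_two_pi_dvd_sub] at h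
  obtain ⟨k, hk⟩ := h
  have e : Complex.arg (z * w) = Complex.arg z + Complex.arg w + k * (2 * Real.pi) := by linarith
  rw [e]
  exact hp.int_mul k _

lemma continuousAt_angle {H : ℝ → ℝ} (hc : Continuous H) (hp : Function.Periodic H (2 * Real.pi))
    {z : ℂ} (hz : z ≠ 0) : ContinuousAt (fun w => H (Complex.arg w)) z := by
  have h1 : (fun w => H (Complex.arg w)) =ᶠ[𝓝 z]
      fun w => H (Complex.arg z + Complex.arg (w / z)) := by
    filter_upwards [isOpen_ne.mem_nhds hz] with w hw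
    rw [← arg_mul hp hz (div_ne_zero hw hz), mul_div_cancel₀ _ hz]
  refine ContinuousAt.congr ?_ h1.symm
  have h2 : ContinuousAt (fun w => Complex.arg (w / z)) z := by
    have h3 : ContinuousAt (fun w : ℂ => w / z) z := by fun_prop
    have h4 : ContinuousAt Complex.arg (z / z) := by
      rw [div_self hz]
      exact Complex.continuousAt_arg Complex.one_mem_slitPlane
    exact ContinuousAt.comp (f := fun w : ℂ => w / z) (g := Complex.arg) h4 h3
  exact hc.continuousAt.comp (continuousAt_const.add h2)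

lemma bounded_per {H : ℝ → ℝ} (hc : Continuous H) (hp : Function.Periodic H (2 * Real.pi)) :
    ∃ M : ℝ, 0 ≤ M ∧ ∀ t, |H t| ≤ M := by
  obtain ⟨M, hM⟩ := (isCompact_Icc (a := (0:ℝ)) (b := 2 * Real.pi)).exists_bound_of_continuousOn
    hc.continuousOn
  refine ⟨max M 0, le_max_right _ _, fun t => ?_⟩
  obtain ⟨s, hs, he⟩ := hp.exists_mem_Ico₀ Real.two_pi_pos t
  rw [he]
  exact (hM s ⟨hs.1, hs.2.le⟩).trans (le_max_left _ _)

lemma hom_bound {H : ℝ → ℝ} {M : ℝ} (hM : ∀ t, |H t| ≤ M) (k : ℕ) (x : E2) :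
    |hom k H x| ≤ M * ‖x‖ ^ k := by
  unfold hom
  rw [abs_mul, abs_of_nonneg (by positivity), mul_comm]
  exact mul_le_mul_of_nonneg_right (hM _) (by positivity)

lemma hom_continuous {H : ℝ → ℝ} (hc : Continuous H) (hp : Function.Periodic H (2 * Real.pi))
    {k : ℕ} (hk : k ≠ 0) : Continuous (hom k H) := by
  rw [continuous_iff_continuousAt]
  intro x
  by_cases hx : x = 0
  · subst hx
    obtain ⟨M, hM0, hM⟩ := bounded_per hc hp
    have h0 : hom k H 0 = 0 := by simp [hom, hk]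
    unfold ContinuousAt
    rw [h0]
    refine squeeze_zero_norm (a := fun x => M * ‖x‖ ^ k) (fun x => hom_bound hM k x) ?_
    have : Continuous (fun x : E2 => M * ‖x‖ ^ k) := by fun_prop
    have h2 := this.tendsto 0
    simpa [hk] using h2
  · unfold hom
    refine ContinuousAt.mul (by fun_prop) ?_
    have h1 := continuousAt_angle hc hp (LC_ne hx)
    exact ContinuousAt.comp (f := fun x : E2 => LC x) (g := fun w => H (Complex.arg w)) h1
      LC.continuous.continuousAt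

lemma hom_small {H : ℝ → ℝ} (hc : Continuous H) (hp : Function.Periodic H (2 * Real.pi)) :
    ∀ δ > 0, ∀ᶠ x in 𝓝 (0:E2), |hom 3 H x| ≤ δ * ‖x‖ ^ 2 := by
  intro δ hδ
  obtain ⟨M, hM0, hM⟩ := bounded_per hc hp
  have h1 : ∀ᶠ x in 𝓝 (0:E2), M * ‖x‖ ≤ δ := by
    have : Continuous (fun x : E2 => M * ‖x‖) := by fun_prop
    have h2 := this.tendsto 0
    simp only [norm_zero, mul_zero] at h2
    exact (h2.eventually (gt_mem_nhds hδ)).mono fun x hx => hx.le
  filter_upwards [h1] with x hx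
  calc |hom 3 H x| ≤ M * ‖x‖ ^ 3 := hom_bound hM 3 x
    _ = (M * ‖x‖) * ‖x‖ ^ 2 := by ring
    _ ≤ δ * ‖x‖ ^ 2 := mul_le_mul_of_nonneg_right hx (by positivity)

/-- The one-variable computation. -/
lemma radial_derivs {G G1 G2 : ℝ → ℝ} (hG : ∀ t, HasDerivAt G (G1 t) t)
    (hG1 : ∀ t, HasDerivAt G1 (G2 t) t) (θ : ℝ) (η : ℂ) :
    ∃ u1 : ℝ → ℝ, (∀ᶠ t in 𝓝 (0:ℝ), HasDerivAt (fun t : ℝ => ‖1 + (t:ℂ) * η‖ ^ 3 *
        G (θ + Complex.arg (1 + (t:ℂ) * η))) (u1 t) t) ∧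
      u1 0 = 3 * η.re * G θ + η.im * G1 θ ∧
      HasDerivAt u1 ((6 * η.re ^ 2 + 3 * η.im ^ 2) * G θ + 4 * η.re * η.im * G1 θ +
        η.im ^ 2 * G2 θ) 0 := by
  set a := η.re with ha
  set b := η.im with hb
  set q : ℝ → ℝ := fun t => (1 + t * a) ^ 2 + (t * b) ^ 2 with hq
  set q1 : ℝ → ℝ := fun t => 2 * (1 + t * a) * a + 2 * (t * b) * b with hq1
  have hla : ∀ t c : ℝ, HasDerivAt (fun t : ℝ => t * c) c t := fun t c => by
    simpa using (hasDerivAt_id t).mul_const c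
  have hqd : ∀ t, HasDerivAt q (q1 t) t := by
    intro t
    have h1 := ((hla t a).const_add 1).fun_pow 2
    have h2 := (hla t b).fun_pow 2
    refine (h1.fun_add h2).congr_deriv ?_
    simp only [hq1]
    ring
  have hq1d : ∀ t, HasDerivAt q1 (2 * a ^ 2 + 2 * b ^ 2) t := by
    intro t
    have h1 := (((hla t a).const_add 1).const_mul 2).mul_const a
    have h2 := ((hla t b).const_mul 2).mul_const b
    refine (h1.fun_add h2).congr_deriv ?_
    ring
  have hnorm : ∀ t : ℝ, ‖1 + (t:ℂ) * η‖ = √(q t) := by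
    intro t
    rw [Complex.norm_def, Complex.normSq_apply]
    congr 1
    simp [hq, ha, hb]
    ring
  have hsq : ∀ t : ℝ, Complex.normSq (1 + (t:ℂ) * η) = q t := by
    intro t
    rw [Complex.normSq_apply]
    simp [hq, ha, hb]
    ring
  have hlin : ∀ t : ℝ, HasDerivAt (fun t : ℝ => 1 + (t:ℂ) * η) η t := by
    intro t
    have h1 : HasDerivAt (fun t : ℝ => (t:ℂ)) 1 t := Complex.ofRealCLM.hasDerivAt
    simpa using (h1.mul_const η).const_add 1
  have hev : ∀ᶠ t : ℝ in 𝓝 (0:ℝ), 1 + (t:ℂ) * η ∈ Complex.slitPlane := by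
    have hc : ContinuousAt (fun t : ℝ => 1 + (t:ℂ) * η) 0 := (hlin 0).continuousAt
    refine hc.eventually_mem ?_
    simp only [Complex.ofReal_zero, zero_mul, add_zero]
    exact Complex.isOpen_slitPlane.mem_nhds Complex.one_mem_slitPlane
  have harg : ∀ t : ℝ, 1 + (t:ℂ) * η ∈ Complex.slitPlane →
      HasDerivAt (fun t : ℝ => Complex.arg (1 + (t:ℂ) * η)) (b / q t) t := by
    intro t ht
    have h1 := (hlin t).clog_real ht
    have h2 := Complex.imCLM.hasFDerivAt.comp_hasDerivAt t h1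
    have h3 : HasDerivAt (fun t : ℝ => Complex.arg (1 + (t:ℂ) * η))
        (Complex.imCLM (η / (1 + (t:ℂ) * η))) t := by
      refine h2.congr_of_eventuallyEq (Eventually.of_forall fun s => ?_)
      simp [Complex.log_im]
    refine h3.congr_deriv ?_
    simp only [Complex.imCLM_apply]
    rw [Complex.div_im, hsq]
    simp [hb]
    ring
  have hqpos : ∀ t : ℝ, 1 + (t:ℂ) * η ∈ Complex.slitPlane → 0 < q t := by
    intro t ht
    rw [← hsq]
    exact Complex.normSq_pos.mpr (Complex.slitPlane_ne_zero ht)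
  have hq0 : q 0 = 1 := by simp [hq]
  have hq10 : q1 0 = 2 * a := by simp [hq1]
  have hsqrt : ∀ t, 0 < q t → HasDerivAt (fun t => √(q t)) (q1 t / (2 * √(q t))) t := by
    intro t ht
    exact (hqd t).sqrt ht.ne'
  refine ⟨fun t => √(q t) * (3 / 2 * q1 t * G (θ + Complex.arg (1 + (t:ℂ) * η)) +
    b * G1 (θ + Complex.arg (1 + (t:ℂ) * η))), ?_, ?_, ?_⟩
  · filter_upwards [hev] with t ht
    have hqp := hqpos t ht
    have hs := Real.sqrt_pos.mpr hqp
    have hss := Real.sq_sqrt hqp.le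
    have h1 := (hsqrt t hqp).fun_pow 3
    have h2 := HasDerivAt.comp t (hG (θ + Complex.arg (1 + (t:ℂ) * η))) ((harg t ht).const_add θ)
    have h3 := h1.fun_mul h2
    refine (h3.congr_of_eventuallyEq (Eventually.of_forall fun s => ?_)).congr_deriv ?_
    · simp only [hnorm, Function.comp_def]
    · simp only [Function.comp_def]
      have hsne := hs.ne'
      have hqe : q t = √(q t) ^ 2 := hss.symm
      rw [show b / q t = b / √(q t) ^ 2 by rw [hss]]
      field_simp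
      ring
  · simp only [hq0, hq10, Real.sqrt_one, Complex.ofReal_zero, zero_mul, add_zero, Complex.arg_one]
    ring
  · have h0 : 1 + ((0:ℝ):ℂ) * η ∈ Complex.slitPlane := by
      simp only [Complex.ofReal_zero, zero_mul, add_zero]
      exact Complex.one_mem_slitPlane
    have hA := (harg 0 h0).const_add θ
    have g1 := HasDerivAt.comp (0:ℝ) (hG (θ + Complex.arg (1 + ((0:ℝ):ℂ) * η))) hA
    have g2 := HasDerivAt.comp (0:ℝ) (hG1 (θ + Complex.arg (1 + ((0:ℝ):ℂ) * η))) hA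
    have g3 := ((hq1d 0).const_mul (3 / 2)).fun_mul g1
    have g4 := g2.const_mul b
    have g5 := (hsqrt 0 (by rw [hq0]; exact one_pos)).fun_mul (g3.fun_add g4)
    refine g5.congr_deriv ?_
    simp only [hq0, hq10, Real.sqrt_one, Complex.ofReal_zero, zero_mul, add_zero, Complex.arg_one,
      Function.comp_def]
    ring

lemma hom_jet {G G1 G2 : ℝ → ℝ} (hG : ∀ t, HasDerivAt G (G1 t) t)
    (hG1 : ∀ t, HasDerivAt G1 (G2 t) t) (hp : Function.Periodic G (2 * Real.pi)) {x : E2}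
    (hx : x ≠ 0) : Jet (hom 3 G) x
      (fun y => ‖x‖ ^ 3 * (3 * (LC y / LC x).re * G (LC x).arg +
        (LC y / LC x).im * G1 (LC x).arg))
      (fun y => ‖x‖ ^ 3 * ((6 * (LC y / LC x).re ^ 2 + 3 * (LC y / LC x).im ^ 2) * G (LC x).arg +
        4 * (LC y / LC x).re * (LC y / LC x).im * G1 (LC x).arg +
        (LC y / LC x).im ^ 2 * G2 (LC x).arg)) := by
  intro y
  obtain ⟨u1, h1, h2, h3⟩ := radial_derivs hG hG1 (LC x).arg (LC y / LC x)
  have hz := LC_ne hx
  refine ⟨fun t => ‖x‖ ^ 3 * u1 t, ?_, by simp only [h2], h3.const_mul _⟩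
  have hev : ∀ᶠ t : ℝ in 𝓝 (0:ℝ), 1 + (t:ℂ) * (LC y / LC x) ≠ 0 := by
    have hc : Continuous (fun t : ℝ => 1 + (t:ℂ) * (LC y / LC x)) := by fun_prop
    have := hc.continuousAt (x := 0)
    refine this.eventually_ne ?_
    simp
  have hev1 : ∀ᶠ t : ℝ in 𝓝 (0:ℝ), hom 3 G (x + t • y) = ‖x‖ ^ 3 *
      (‖1 + (t:ℂ) * (LC y / LC x)‖ ^ 3 *
        G ((LC x).arg + Complex.arg (1 + (t:ℂ) * (LC y / LC x)))) := by
    filter_upwards [hev] with t ht
    have e1 : LC (x + t • y) = LC x * (1 + (t:ℂ) * (LC y / LC x)) := by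
      rw [map_add, map_smul, Complex.real_smul]
      field_simp
    unfold hom
    rw [← LC_norm (x + t • y), e1, norm_mul, LC_norm, arg_mul hp hz ht, mul_pow]
    ring
  have hev2 := eventually_eventually_nhds.mpr hev1
  filter_upwards [h1, hev2] with t a b
  exact (a.const_mul (‖x‖ ^ 3)).congr_of_eventuallyEq b

/-- The operator in an orthonormal frame. -/
lemma opDir_frame (p : ℝ) (φ : E2 → ℝ) (x : E2) {ζ : ℂ} (hζ : ‖ζ‖ = 1) :
    opDir p φ x (LC.symm ζ) =
      (p - 1) * fderiv ℝ (fderiv ℝ φ) x (LC.symm ζ) (LC.symm ζ) +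
      fderiv ℝ (fderiv ℝ φ) x (LC.symm (ζ * Complex.I)) (LC.symm (ζ * Complex.I)) := by
  set c : Circle := ⟨ζ, by simpa [Submonoid.unitSphere] using hζ⟩ with hc
  set b : OrthonormalBasis (Fin 2) ℝ E2 :=
    (Complex.orthonormalBasisOneI.map (rotation c)).map LC.symm with hb
  have h := InnerProductSpace.laplacian_eq_iteratedFDeriv_orthonormalBasis φ b
  have r0 : rotation c 1 = ζ := by
    rw [rotation_apply, mul_one]
  have r1 : rotation c Complex.I = ζ * Complex.I := by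
    rw [rotation_apply]
  have b0 : b 0 = LC.symm ζ := by
    rw [hb, OrthonormalBasis.map_apply, OrthonormalBasis.map_apply,
      Complex.coe_orthonormalBasisOneI]
    simp only [Matrix.cons_val_zero]
    rw [r0]
  have b1 : b 1 = LC.symm (ζ * Complex.I) := by
    rw [hb, OrthonormalBasis.map_apply, OrthonormalBasis.map_apply,
      Complex.coe_orthonormalBasisOneI]
    simp only [Matrix.cons_val_one, Matrix.cons_val_fin_one]
    rw [r1]
  unfold opDir
  rw [h]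
  simp only [Fin.sum_univ_two, iteratedFDeriv_two_apply, b0, b1]
  simp
  ring

lemma norm_LCsymm {ζ : ℂ} (hζ : ‖ζ‖ = 1) : ‖LC.symm ζ‖ = 1 := by
  rw [LC.symm.norm_map, hζ]

lemma gradient_of {φ : E2 → ℝ} {x v : E2} (h : ∀ y, fderiv ℝ φ x y = inner ℝ v y) :
    ∇ φ x = v := by
  unfold gradient
  rw [LinearIsometryEquiv.symm_apply_eq]
  ext y
  rw [h, InnerProductSpace.toDual_apply_apply]

lemma gradient_zero_of {φ : E2 → ℝ} {x : E2} (h : ∀ y, fderiv ℝ φ x y = 0) :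
    ∇ φ x = 0 := gradient_of fun y => by rw [h, inner_zero_left]

/-- The frame adapted to the gradient of `|x|³ G(θ)`. -/
lemma frame {G G1 : ℝ → ℝ} (hpos : ∀ t, 0 < G t) {x : E2} (hx : x ≠ 0) :
    ∃ (ζ : ℂ) (c ρ : ℝ), ‖ζ‖ = 1 ∧ 0 < c ∧ 0 < ρ ∧
      ρ ^ 2 = 9 * G (LC x).arg ^ 2 + G1 (LC x).arg ^ 2 ∧
      (∀ y, ‖x‖ ^ 3 * (3 * (LC y / LC x).re * G (LC x).arg +
        (LC y / LC x).im * G1 (LC x).arg) = inner ℝ (c • LC.symm ζ) y) ∧
      (ζ / LC x).re = 3 * G (LC x).arg / (‖x‖ * ρ) ∧ (ζ / LC x).im = G1 (LC x).arg / (‖x‖ * ρ) ∧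
      (ζ * Complex.I / LC x).re = -G1 (LC x).arg / (‖x‖ * ρ) ∧
      (ζ * Complex.I / LC x).im = 3 * G (LC x).arg / (‖x‖ * ρ) := by
  set g := G (LC x).arg with hg
  set g1 := G1 (LC x).arg with hg1
  have hgp : 0 < g := hpos _
  have hz := LC_ne hx
  have hr : 0 < ‖x‖ := norm_pos_iff.mpr hx
  set ρ := √(9 * g ^ 2 + g1 ^ 2) with hρ
  have hρ0 : 0 < ρ := Real.sqrt_pos.mpr (by positivity)
  have hρ2 : ρ ^ 2 = 9 * g ^ 2 + g1 ^ 2 := Real.sq_sqrt (by positivity)
  set η : ℂ := ⟨3 * g / (‖x‖ * ρ), g1 / (‖x‖ * ρ)⟩ with hη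
  have hnη : ‖η‖ = 1 / ‖x‖ := by
    rw [Complex.norm_def, Complex.normSq_apply, hη]
    have : 3 * g / (‖x‖ * ρ) * (3 * g / (‖x‖ * ρ)) + g1 / (‖x‖ * ρ) * (g1 / (‖x‖ * ρ))
        = (1 / ‖x‖) ^ 2 := by
      have hne : ‖x‖ ≠ 0 := hr.ne'
      field_simp
      rw [hρ2]; ring
    simp only [this]
    exact Real.sqrt_sq (by positivity)
  refine ⟨LC x * η, ‖x‖ ^ 2 * ρ, ρ, ?_, by positivity, hρ0, hρ2, fun y => ?_, ?_, ?_, ?_, ?_⟩
  · rw [norm_mul, LC_norm, hnη]
    field_simp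
  · rw [real_inner_smul_left, ← LC.inner_map_map, LinearIsometryEquiv.apply_symm_apply,
      Complex.inner]
    set w := LC y / LC x with hw
    have e1 : LC y = LC x * w := by rw [hw, mul_div_cancel₀ _ hz]
    rw [e1]
    have e2 : LC x * w * (starRingEnd ℂ) (LC x * η) =
        ((‖x‖ ^ 2 : ℝ) : ℂ) * ((starRingEnd ℂ) η * w) := by
      rw [map_mul, ← LC_norm x, ← Complex.normSq_eq_norm_sq, Complex.normSq_eq_conj_mul_self]
      ring
    rw [e2, Complex.re_ofReal_mul, Complex.mul_re, Complex.conj_re, Complex.conj_im]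
    simp only [hη]
    have hne : ‖x‖ ≠ 0 := hr.ne'
    field_simp
    ring
  · rw [mul_div_cancel_left₀ _ hz]
  · rw [mul_div_cancel_left₀ _ hz]
  · have : LC x * η * Complex.I / LC x = η * Complex.I := by field_simp
    rw [this, Complex.mul_I_re]
    simp only [hη]
    ring
  · have : LC x * η * Complex.I / LC x = η * Complex.I := by field_simp
    rw [this, Complex.mul_I_im]

lemma main_identity {β r ρ g g1 g2 : ℝ} (hr : 0 < r) (hρ : 0 < ρ)
    (hρ2 : ρ ^ 2 = 9 * g ^ 2 + g1 ^ 2) :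
    (1 - β) * (r ^ 3 * ((6 * (3 * g / (r * ρ)) ^ 2 + 3 * (g1 / (r * ρ)) ^ 2) * g +
        4 * (3 * g / (r * ρ)) * (g1 / (r * ρ)) * g1 + (g1 / (r * ρ)) ^ 2 * g2)) +
      r ^ 3 * ((6 * (-g1 / (r * ρ)) ^ 2 + 3 * (3 * g / (r * ρ)) ^ 2) * g +
        4 * (-g1 / (r * ρ)) * (3 * g / (r * ρ)) * g1 + (3 * g / (r * ρ)) ^ 2 * g2) =
      r * NN β g g1 g2 := by
  unfold NN
  rw [← hρ2]
  have hne := hr.ne'
  have hne2 := hρ.ne'
  field_simp
  linear_combination (-(g2 + 9 * g - 6 * β * g)) * hρ2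

end

end Pool.Agent.TH297.NP
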