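import Mathlib
import Pool.Agent.TH297.NP.Polar

set_option autoImplicit false

namespace Pool.Agent.TH297.NP

open Set Filter Topology
open scoped InnerProductSpace Gradient Laplacian

noncomputable section

section verify

variable {p : ℝ} {G G1 G2 : ℝ → ℝ}

/-- The source term. -/
def src (p : ℝ) (G G1 G2 : ℝ → ℝ) : E2 → ℝ := hom 1 (fun t => NN (2 - p) (G t) (G1 t) (G2 t))

lemma src_zero : src p G G1 G2 0 = 0 := by simp [src, hom]

lemma jet_sum (hpos : ∀ t, 0 < G t) {x : E2} (hx : x ≠ 0) :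
    ∃ (ζ : ℂ) (c : ℝ), ‖ζ‖ = 1 ∧ 0 < c ∧
      (∀ y, ‖x‖ ^ 3 * (3 * (LC y / LC x).re * G (LC x).arg +
        (LC y / LC x).im * G1 (LC x).arg) = inner ℝ (c • LC.symm ζ) y) ∧
      ∀ B : E2 → ℝ, (B = fun y => ‖x‖ ^ 3 * ((6 * (LC y / LC x).re ^ 2 +
          3 * (LC y / LC x).im ^ 2) * G (LC x).arg +
          4 * (LC y / LC x).re * (LC y / LC x).im * G1 (LC x).arg +
          (LC y / LC x).im ^ 2 * G2 (LC x).arg)) →
        (p - 1) * B (LC.symm ζ) + B (LC.symm (ζ * Complex.I)) = src p G G1 G2 x := by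
  obtain ⟨ζ, c, ρ, h1, h2, h3, h4, h5, h6, h7, h8, h9⟩ := frame (G1 := G1) hpos hx
  refine ⟨ζ, c, h1, h2, h5, ?_⟩
  rintro B rfl
  have hr : 0 < ‖x‖ := norm_pos_iff.mpr hx
  have hid := main_identity (β := 2 - p) (g2 := G2 (LC x).arg) hr h3 h4
  simp only [LinearIsometryEquiv.apply_symm_apply, h6, h7, h8, h9]
  unfold src hom
  rw [pow_one, ← hid]
  ring

theorem hom_sub (hp1 : 1 < p) (hpos : ∀ t, 0 < G t) (hG : ∀ t, HasDerivAt G (G1 t) t)
    (hG1 : ∀ t, HasDerivAt G1 (G2 t) t) (hper : Function.Periodic G (2 * Real.pi)) (Ω : Set E2) :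
    IsViscSub p Ω (src p G G1 G2) (hom 3 G) := by
  intro x _ φ hφ hmax
  have hGc : Continuous G := continuous_iff_continuousAt.mpr fun t => (hG t).continuousAt
  by_cases hx : x = 0
  · subst hx
    have h := flat_max (u := hom 3 G) (by simp [hom]) (hom_small hGc hper) hφ hmax
    have hg : ∇ φ 0 = 0 := gradient_zero_of fun y => (h y).1
    refine ⟨fun hne => absurd hg hne, fun _ => ⟨LC.symm 1, norm_LCsymm (by simp), ?_⟩⟩
    rw [opDir_frame p φ 0 (by simp), src_zero]
    have := mul_nonneg (by linarith : 0 ≤ p - 1) (h (LC.symm 1)).2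
    have := (h (LC.symm (1 * Complex.I))).2
    linarith
  · obtain ⟨ζ, c, h1, h2, h3, h4⟩ := jet_sum (p := p) (G1 := G1) (G2 := G2) hpos hx
    have hj := jet_max (hom_jet hG hG1 hper hx) hφ hmax
    have hg : ∇ φ x = c • LC.symm ζ := gradient_of fun y => by rw [(hj y).1]; exact h3 y
    have hne : ∇ φ x ≠ 0 := by
      rw [hg, ← norm_pos_iff, norm_smul, norm_LCsymm h1, Real.norm_of_nonneg h2.le]
      linarith
    refine ⟨fun _ => ?_, fun h0 => absurd h0 hne⟩
    rw [normPLap_eq p φ x (LC.symm ζ) h2 (norm_LCsymm h1) hg, opDir_frame p φ x h1,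
      ← h4 _ rfl]
    have := mul_le_mul_of_nonneg_left (hj (LC.symm ζ)).2 (by linarith : 0 ≤ p - 1)
    have := (hj (LC.symm (ζ * Complex.I))).2
    linarith

theorem hom_super (hp1 : 1 < p) (hpos : ∀ t, 0 < G t) (hG : ∀ t, HasDerivAt G (G1 t) t)
    (hG1 : ∀ t, HasDerivAt G1 (G2 t) t) (hper : Function.Periodic G (2 * Real.pi)) (Ω : Set E2) :
    IsViscSuper p Ω (src p G G1 G2) (hom 3 G) := by
  intro x _ φ hφ hmin
  have hGc : Continuous G := continuous_iff_continuousAt.mpr fun t => (hG t).continuousAt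
  by_cases hx : x = 0
  · subst hx
    have h := flat_min (u := hom 3 G) (by simp [hom]) (hom_small hGc hper) hφ hmin
    have hg : ∇ φ 0 = 0 := gradient_zero_of fun y => (h y).1
    refine ⟨fun hne => absurd hg hne, fun _ => ⟨LC.symm 1, norm_LCsymm (by simp), ?_⟩⟩
    rw [opDir_frame p φ 0 (by simp), src_zero]
    have := mul_le_mul_of_nonneg_left (h (LC.symm 1)).2 (by linarith : 0 ≤ p - 1)
    have := (h (LC.symm (1 * Complex.I))).2
    linarith
  · obtain ⟨ζ, c, h1, h2, h3, h4⟩ := jet_sum (p := p) (G1 := G1) (G2 := G2) hpos hx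
    have hj := jet_min (hom_jet hG hG1 hper hx) hφ hmin
    have hg : ∇ φ x = c • LC.symm ζ := gradient_of fun y => by rw [(hj y).1]; exact h3 y
    have hne : ∇ φ x ≠ 0 := by
      rw [hg, ← norm_pos_iff, norm_smul, norm_LCsymm h1, Real.norm_of_nonneg h2.le]
      linarith
    refine ⟨fun _ => ?_, fun h0 => absurd h0 hne⟩
    rw [normPLap_eq p φ x (LC.symm ζ) h2 (norm_LCsymm h1) hg, opDir_frame p φ x h1,
      ← h4 _ rfl]
    have := mul_le_mul_of_nonneg_left (hj (LC.symm ζ)).2 (by linarith : 0 ≤ p - 1)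
    have := (hj (LC.symm (ζ * Complex.I))).2
    linarith

end verify

/-- The domain `{|x|³ H(θ) < 1}`. -/
def dom (H : ℝ → ℝ) : Set E2 := {x | hom 3 H x < 1}

section domain

variable {H : ℝ → ℝ} (hc : Continuous H) (hp : Function.Periodic H (2 * Real.pi))
  (hpos : ∀ t, 0 < H t)

include hc hp in
lemma dom_open : IsOpen (dom H) :=
  isOpen_lt (hom_continuous hc hp (by norm_num)) continuous_const

lemma zero_mem_dom : (0:E2) ∈ dom H := by
  simp [dom, hom]

include hpos in
lemma dom_conn : IsConnected (dom H) := by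
  have hs : StarConvex ℝ (0:E2) (dom H) := by
    rw [starConvex_zero_iff]
    intro x hx t ht0 ht1
    rcases ht0.eq_or_lt with h | h
    · rw [← h, zero_smul]; exact zero_mem_dom
    · have e : hom 3 H (t • x) = t ^ 3 * hom 3 H x := by
        unfold hom
        rw [norm_smul, map_smul, Complex.real_smul, Complex.arg_real_mul _ h,
          Real.norm_of_nonneg ht0]
        ring
      change hom 3 H (t • x) < 1
      rw [e]
      have h1 : hom 3 H x < 1 := hx
      have h2 : 0 ≤ hom 3 H x := by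
        unfold hom
        exact mul_nonneg (by positivity) (hpos _).le
      have h3 : t ^ 3 ≤ 1 := pow_le_one₀ ht0 ht1
      nlinarith
  exact (hs.isPathConnected zero_mem_dom).isConnected

include hc hp hpos in
lemma dom_bdd : Bornology.IsBounded (dom H) := by
  -- lower bound of H
  obtain ⟨t0, _, hmin⟩ := (isCompact_Icc (a := (0:ℝ)) (b := 2 * Real.pi)).exists_isMinOn
    ⟨0, by simp [Real.pi_pos.le]⟩ hc.continuousOn
  have hm : ∀ t, H t0 ≤ H t := by
    intro t
    obtain ⟨s, hs, he⟩ := hp.exists_mem_Ico₀ Real.two_pi_pos t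
    rw [he]
    exact hmin ⟨hs.1, hs.2.le⟩
  have hm0 := hpos t0
  rw [isBounded_iff_forall_norm_le]
  refine ⟨1 + 1 / H t0, fun x hx => ?_⟩
  by_contra hcon
  push Not at hcon
  have h1 : hom 3 H x < 1 := hx
  have h2 : 1 < ‖x‖ := lt_trans (by linarith [div_pos one_pos hm0]) hcon
  have h3 : ‖x‖ ≤ ‖x‖ ^ 3 := by nlinarith [sq_nonneg (‖x‖), mul_pos (by linarith : 0 < ‖x‖) (by linarith : 0 < ‖x‖)]
  have h4 : 1 / H t0 < ‖x‖ ^ 3 := by linarith
  rw [div_lt_iff₀ hm0] at h4
  have h5 : ‖x‖ ^ 3 * H t0 ≤ hom 3 H x := by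
    unfold hom
    exact mul_le_mul_of_nonneg_left (hm _) (by positivity)
  linarith

include hc hp in
lemma dom_frontier {x : E2} (hx : x ∈ frontier (dom H)) : hom 3 H x = 1 :=
  frontier_lt_subset_eq (hom_continuous hc hp (by norm_num)) continuous_const hx

end domain

/-- **Non-uniqueness for the normalized `p`-Laplacian, `1 < p < 2`.** -/
theorem nonuniqueness {p : ℝ} (hp1 : 1 < p) (hp2 : p < 2) :
    ∃ (Ω : Set E2) (f g u v : E2 → ℝ), IsOpen Ω ∧ IsConnected Ω ∧ Bornology.IsBounded Ω ∧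
      Continuous f ∧ Continuous g ∧ IsDirichletSol p Ω f g u ∧ IsDirichletSol p Ω f g v ∧
      ∃ x ∈ Ω, u x ≠ v x := by
  obtain ⟨d, G, G1, G2, hpos, hG, hG1, hG2c, hper, hper1, hper2, hN⟩ :=
    exists_profile (β := 2 - p) (by linarith) (by linarith)
  have hGc : Continuous G := continuous_iff_continuousAt.mpr fun t => (hG t).continuousAt
  have hG1c : Continuous G1 := continuous_iff_continuousAt.mpr fun t => (hG1 t).continuousAt
  -- shifted profile
  set K : ℝ → ℝ := fun t => G (t + d) with hK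
  set K1 : ℝ → ℝ := fun t => G1 (t + d) with hK1
  set K2 : ℝ → ℝ := fun t => G2 (t + d) with hK2
  have hKd : ∀ t, HasDerivAt K (K1 t) t := fun t => hda_addc (hG (t + d))
  have hK1d : ∀ t, HasDerivAt K1 (K2 t) t := fun t => hda_addc (hG1 (t + d))
  have hKpos : ∀ t, 0 < K t := fun t => hpos _
  have hKper : Function.Periodic K (2 * Real.pi) := fun t => by
    simp only [hK]; rw [add_right_comm]; exact hper _
  have hKc : Continuous K := hGc.comp (continuous_id.add continuous_const)
  set H : ℝ → ℝ := fun t => G t + K t with hH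
  have hHc : Continuous H := hGc.add hKc
  have hHp : Function.Periodic H (2 * Real.pi) := fun t => by
    simp only [hH]; rw [hper t, hKper t]
  have hHpos : ∀ t, 0 < H t := fun t => add_pos (hpos t) (hKpos t)
  have hsplit : ∀ x, hom 3 H x = hom 3 G x + hom 3 K x := by
    intro x; simp only [hom, hH]; ring
  have hsrc : ∀ x, src p G G1 G2 x = -src p K K1 K2 x := by
    intro x
    unfold src hom
    simp only [hK, hK1, hK2]
    rw [hN]
    ring
  have hfc : Continuous (src p G G1 G2) := by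
    refine hom_continuous ?_ ?_ (by norm_num)
    · unfold NN
      have hne : ∀ t, 9 * G t ^ 2 + G1 t ^ 2 ≠ 0 := fun t => by
        have := hpos t; positivity
      have : Continuous fun t => G1 t ^ 2 / (9 * G t ^ 2 + G1 t ^ 2) :=
        (hG1c.pow 2).div ((continuous_const.mul (hGc.pow 2)).add (hG1c.pow 2)) hne
      fun_prop
    · intro t
      simp only [hper t, hper1 t, hper2 t]
  have hKsub := hom_sub (p := p) hp1 hKpos hKd hK1d hKper (dom H)
  have hKsup := hom_super (p := p) hp1 hKpos hKd hK1d hKper (dom H)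
  have hfeq : (fun x => -src p K K1 K2 x) = src p G G1 G2 := funext fun x => (hsrc x).symm
  have hvsub : IsViscSub p (dom H) (src p G G1 G2) (fun x => -hom 3 K x) := by
    have := sub_of_super_neg hKsup
    rwa [hfeq] at this
  have hvsup : IsViscSuper p (dom H) (src p G G1 G2) (fun x => -hom 3 K x) := by
    have := super_of_sub_neg hKsub
    rwa [hfeq] at this
  have hcK : Continuous (fun x => -hom 3 K x) := (hom_continuous hKc hKper (by norm_num)).neg
  refine ⟨dom H, src p G G1 G2, fun x => -hom 3 K x, fun x => hom 3 G x + -1,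
    fun x => -hom 3 K x, dom_open hHc hHp, dom_conn hHpos, dom_bdd hHc hHp hHpos, hfc, hcK,
    ⟨?_, fun x hx => ?_, ?_, ?_⟩, ⟨hcK.continuousOn, fun x _ => rfl, hvsub, hvsup⟩,
    0, zero_mem_dom, ?_⟩
  · exact ((hom_continuous hGc hper (by norm_num)).add continuous_const).continuousOn
  · have := dom_frontier hHc hHp hx
    rw [hsplit] at this
    linarith
  · exact sub_add_const (hom_sub hp1 hpos hG hG1 hper _) (-1)
  · exact super_add_const (hom_super hp1 hpos hG hG1 hper _) (-1)
  · simp [hom]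

end

end Pool.Agent.TH297.NP
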